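import Pool.Agent.V8H56.EQ.Kr
import Pool.Agent.V8H56.EQ.Cq5

/-!
# Families of linear characters of a finite group
-/

set_option autoImplicit false

noncomputable section

namespace Pool.Agent.V8H56.MA

open Pool.Agent.V8H56.EQ

section lin

variable {Z : Type} [Group Z] [Finite Z]

/-- linear characters with the same kernel are Galois conjugate -/
theorem same_ker' {l m : Z →* ℂ} (h : l.ker = m.ker) :
    ∃ σ : ℂ ≃+* ℂ, ∀ z, m z = σ (l z) := by
  have hfin : Finite (MonoidHom.toHomUnits l).range := Finite.of_surjective _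
    (MonoidHom.rangeRestrict_surjective (MonoidHom.toHomUnits l))
  have hc : IsCyclic (MonoidHom.toHomUnits l).range := inferInstance
  obtain ⟨⟨_, ⟨z₀, rfl⟩⟩, hgen⟩ := hc.exists_generator
  have hall : ∀ z, ∃ j : ℕ, l z = l z₀ ^ j := by
    intro z
    obtain ⟨j, hj⟩ := mem_powers_iff_mem_zpowers.mpr (hgen ⟨MonoidHom.toHomUnits l z, ⟨z, rfl⟩⟩)
    have h1 := congrArg (fun x : (MonoidHom.toHomUnits l).range => ((x : ℂˣ) : ℂ)) hj
    exact ⟨j, h1.symm⟩
  set n := orderOf (l z₀) with hn
  have hn0 : 0 < n := by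
    rw [hn, orderOf_pos_iff, isOfFinOrder_iff_pow_eq_one]
    refine ⟨Nat.card Z, Nat.card_pos, ?_⟩
    rw [← map_pow, pow_card_eq_one', map_one]
  have hpr : IsPrimitiveRoot (l z₀) n := IsPrimitiveRoot.orderOf _
  have hpm : IsPrimitiveRoot (m z₀) n := by
    have h1 : ∀ j : ℕ, m z₀ ^ j = 1 ↔ l z₀ ^ j = 1 := by
      intro j
      rw [← map_pow, ← map_pow, ← MonoidHom.mem_ker, ← MonoidHom.mem_ker, h]
    exact ⟨(h1 _).mpr hpr.pow_eq_one, fun j hj => hpr.dvd_of_pow_eq_one j ((h1 j).mp hj)⟩
  have : NeZero n := ⟨hn0.ne'⟩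
  obtain ⟨i, hi1, hi2, hi3⟩ := hpr.isPrimitiveRoot_iff.mp hpm
  obtain ⟨σ, hσ⟩ := Pool.Agent.R677.FV.exists_sigma n hn0.ne' i hi2
  refine ⟨σ, fun z => ?_⟩
  obtain ⟨j, hj⟩ := hall z
  have h1 : z * (z₀ ^ j)⁻¹ ∈ l.ker := by
    rw [MonoidHom.mem_ker, map_mul, hj, ← map_pow, ← map_mul, mul_inv_cancel, map_one]
  rw [h, MonoidHom.mem_ker] at h1
  have h2 : m z = m (z₀ ^ j) := by
    have h3 : z = z * (z₀ ^ j)⁻¹ * z₀ ^ j := by rw [inv_mul_cancel_right]
    conv_lhs => rw [h3]
    rw [map_mul, h1, one_mul]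
  rw [h2, map_pow, ← hi3, hj, map_pow, hσ _ hpr.pow_eq_one]

/-- families of linear characters which are closed under Galois conjugation are
determined by their kernels -/
theorem col_count' {A A' : Type} [Finite A] [Finite A'] (v : A → (Z →* ℂ))
    (v' : A' → (Z →* ℂ))
    (hY : ∀ Y : Subgroup Z, Nat.card {a // Y ≤ (v a).ker} = Nat.card {a // Y ≤ (v' a).ker})
    (g : ∀ i : ℂ ≃+* ℂ, ∃ e : A → A, Function.Injective e ∧ ∀ a z, v (e a) z = i (v a z))
    (g' : ∀ i : ℂ ≃+* ℂ, ∃ e : A' → A', Function.Injective e ∧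
      ∀ a z, v' (e a) z = i (v' a z)) (l : Z →* ℂ) :
    Nat.card {a // v a = l} = Nat.card {a // v' a = l} := by
  classical
  have := Fintype.ofFinite A
  have := Fintype.ofFinite A'
  have c1 := card_eq_of_ge (fun a => (v a).ker) (fun a => (v' a).ker) hY
  have le1 : ∀ l m : Z →* ℂ, l.ker = m.ker →
      Nat.card {a // v a = l} ≤ Nat.card {a // v a = m} := by
    intro l m hlm
    obtain ⟨i, hi'⟩ := same_ker' hlm
    obtain ⟨e, he, he'⟩ := g i
    refine Nat.card_le_card_of_injective
      (fun a : {a // v a = l} => (⟨e a.1, MonoidHom.ext fun z => by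
        rw [he', a.2, hi']⟩ : {a // v a = m})) ?_
    intro a a' haa
    exact Subtype.ext (he (congrArg Subtype.val haa))
  have le2 : ∀ l m : Z →* ℂ, l.ker = m.ker →
      Nat.card {a // v' a = l} ≤ Nat.card {a // v' a = m} := by
    intro l m hlm
    obtain ⟨i, hi'⟩ := same_ker' hlm
    obtain ⟨e, he, he'⟩ := g' i
    refine Nat.card_le_card_of_injective
      (fun a : {a // v' a = l} => (⟨e a.1, MonoidHom.ext fun z => by
        rw [he', a.2, hi']⟩ : {a // v' a = m})) ?_
    intro a a' haa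
    exact Subtype.ext (he (congrArg Subtype.val haa))
  set T : Finset (Z →* ℂ) := ((Finset.univ.image v) ∪ (Finset.univ.image v')).filter
    (fun m => m.ker = l.ker) with hT
  have s1 : Nat.card {a // (v a).ker = l.ker} = T.card * Nat.card {a // v a = l} := by
    rw [Nat.card_eq_fintype_card, Fintype.card_subtype,
      Finset.card_eq_sum_card_fiberwise (f := v) (t := T) (by
        intro a ha
        have ha' : (v a).ker = l.ker := by simpa using ha
        rw [Finset.mem_coe, hT, Finset.mem_filter]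
        exact ⟨Finset.mem_union_left _ (Finset.mem_image_of_mem _ (Finset.mem_univ _)), ha'⟩)]
    rw [Finset.sum_const_nat]
    intro m hm
    have hm' := (Finset.mem_filter.mp hm).2
    rw [le_antisymm (le1 l m hm'.symm) (le1 m l hm'), Nat.card_eq_fintype_card,
      Fintype.card_subtype]
    congr 1
    ext a
    simp only [Finset.mem_filter, Finset.mem_univ, true_and]
    exact ⟨fun h => h.2, fun h => ⟨by rw [h]; exact hm', h⟩⟩
  have s2 : Nat.card {a // (v' a).ker = l.ker} = T.card * Nat.card {a // v' a = l} := by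
    rw [Nat.card_eq_fintype_card, Fintype.card_subtype,
      Finset.card_eq_sum_card_fiberwise (f := v') (t := T) (by
        intro a ha
        have ha' : (v' a).ker = l.ker := by simpa using ha
        rw [Finset.mem_coe, hT, Finset.mem_filter]
        exact ⟨Finset.mem_union_right _ (Finset.mem_image_of_mem _ (Finset.mem_univ _)), ha'⟩)]
    rw [Finset.sum_const_nat]
    intro m hm
    have hm' := (Finset.mem_filter.mp hm).2
    rw [le_antisymm (le2 l m hm'.symm) (le2 m l hm'), Nat.card_eq_fintype_card,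
      Fintype.card_subtype]
    congr 1
    ext a
    simp only [Finset.mem_filter, Finset.mem_univ, true_and]
    exact ⟨fun h => h.2, fun h => ⟨by rw [h]; exact hm', h⟩⟩
  have c2 := c1 l.ker
  rw [s1, s2] at c2
  rcases Nat.eq_zero_or_pos T.card with h0 | h0
  · have h1 : ∀ m ∈ (Finset.univ.image v) ∪ (Finset.univ.image v'), m ≠ l := by
      intro m hm hml
      have h2 : m ∈ T := Finset.mem_filter.mpr ⟨hm, by rw [hml]⟩
      rw [Finset.card_eq_zero.mp h0] at h2
      exact absurd h2 (Finset.notMem_empty _)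
    have e1 : IsEmpty {a // v a = l} := ⟨fun a => h1 (v a.1) (Finset.mem_union_left _
      (Finset.mem_image_of_mem _ (Finset.mem_univ _))) a.2⟩
    have e2 : IsEmpty {a // v' a = l} := ⟨fun a => h1 (v' a.1) (Finset.mem_union_right _
      (Finset.mem_image_of_mem _ (Finset.mem_univ _))) a.2⟩
    rw [Nat.card_of_isEmpty, Nat.card_of_isEmpty]
  · exact Nat.eq_of_mul_eq_mul_left h0 c2

end lin

end Pool.Agent.V8H56.MA
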