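import Pool.Agent.V8H56.MA.Jnt
import Pool.Agent.V8H56.MA.Kr
import Pool.Agent.V8H56.EQ.Cq6

/-!
# Numbers of fixed characters above a character of the centre
-/

set_option autoImplicit false
set_option linter.unusedSectionVars false

open scoped BigOperators Classical

noncomputable section

namespace Pool.Agent.V8H56.MA

open Pool.Agent.Q90.WR Pool.Agent.H254R3.IN Pool.Agent.Q259.BW Pool.Agent.Q288.MB
open Pool.Agent.Helper884 Pool.Agent.N19.RB Pool.Agent.N84.MG Pool.Agent.V8H56.EQ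
open Pool.Agent.V8H56.BF (resA coe_resA inv_iff)

/-- characters fixed by `L` and mapped by `σ` as by `f` -/
def RG {G : Type} [Group G] (L : Set (ℂ ≃+* ℂ)) (σ : ℂ ≃+* ℂ) (f : MulAut G) (θ : G → ℂ) : Prop :=
  (∀ τ ∈ L, FixedBy τ θ) ∧ (fun g => σ (θ g)) = fun g => θ (f g)

/-- characters of a normaliser fixed by `L` and mapped by `σ` as by `f` -/
def RN {G : Type} [Group G] (D : Subgroup G) (L : Set (ℂ ≃+* ℂ)) (σ : ℂ ≃+* ℂ) (f : MulAut G)
    (θ : Subgroup.normalizer (D : Set G) → ℂ) : Prop :=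
  (∀ τ ∈ L, FixedBy τ θ) ∧ ∀ n n' : Subgroup.normalizer (D : Set G), (n' : G) = f n →
    σ (θ n) = θ n'

/-- number of characters of the normaliser of a subgroup -/
def NumN {G : Type} [Group G] (p : ℕ) (D : Subgroup G) (L : Set (ℂ ≃+* ℂ)) (σ : ℂ ≃+* ℂ)
    (f : MulAut G) : ℕ :=
  Nat.card {θ // θ ∈ XP p (Subgroup.normalizer (D : Set G)) ∧ RN D L σ f θ}

/-- Galois automorphisms commute on the values of characters -/
theorem gal_comm {H : Type} [Group H] [Finite H] (σ κ : ℂ ≃+* ℂ) {χ : H → ℂ} (hχ : IsIrr χ)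
    (g : H) : σ (κ (χ g)) = κ (σ (χ g)) := by
  obtain ⟨i, -, hi⟩ := exists_pow σ (Nat.card_pos (α := H))
  obtain ⟨j, -, hj⟩ := exists_pow κ (Nat.card_pos (α := H))
  rw [hj H χ hχ g pow_card_eq_one', hi H χ hχ _ pow_card_eq_one', hi H χ hχ g pow_card_eq_one',
    hj H χ hχ _ pow_card_eq_one', ← pow_mul, ← pow_mul, mul_comm]

section quo

variable {G Q : Type} [Group G] [Group Q] [Fintype G] [Fintype Q] {p : ℕ} [hp : Fact p.Prime]
  {π : G →* Q}

/-- central `p`-elements are in all Sylow subgroups -/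
theorem cent_mem (S : Sylow p G) {y : G} (hy : y ∈ Subgroup.center G) {a : ℕ}
    (ha : y ^ p ^ a = 1) : y ∈ (S : Subgroup G) := by
  have hn : (Subgroup.zpowers y).Normal := by
    constructor
    intro n hn g
    have h1 : n ∈ Subgroup.center G := (Subgroup.zpowers_le.mpr hy) hn
    rw [Subgroup.mem_center_iff.mp h1 g, mul_assoc, mul_inv_cancel, mul_one]
    exact hn
  have hK : IsPGroup p (Subgroup.zpowers y) := by
    rintro ⟨z, k, rfl⟩
    refine ⟨a, Subtype.ext ?_⟩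
    change (y ^ k) ^ p ^ a = 1
    rw [← zpow_natCast, ← zpow_mul, mul_comm, zpow_mul, zpow_natCast, ha, one_zpow]
  have h1 : IsPGroup p ((S : Subgroup G) ⊔ Subgroup.zpowers y : Subgroup G) :=
    IsPGroup.to_sup_of_normal_right S.isPGroup' hK
  have h2 := S.is_maximal' h1 le_sup_left
  have h3 : Subgroup.zpowers y ≤ (S : Subgroup G) ⊔ Subgroup.zpowers y := le_sup_right
  rw [h2] at h3
  exact h3 (Subgroup.mem_zpowers y)

theorem conj_S (hc : π.ker ≤ Subgroup.center G) (S : Sylow p G) {g : G}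
    (hg : π g ∈ Subgroup.normalizer ((S : Subgroup G).map π : Set Q)) {s : G}
    (hs : s ∈ (S : Subgroup G)) : g * s * g⁻¹ ∈ (S : Subgroup G) := by
  have h1 := (Subgroup.mem_normalizer_iff.mp hg (π s)).mp ⟨s, hs, rfl⟩
  rw [← map_mul, ← map_inv, ← map_mul] at h1
  obtain ⟨s', hs', h2⟩ := h1
  obtain ⟨y, hy⟩ : ∃ y, y = s'⁻¹ * (g * s * g⁻¹) := ⟨_, rfl⟩
  have hyk : y ∈ π.ker := by
    rw [MonoidHom.mem_ker, hy, map_mul, ← h2, map_inv, inv_mul_cancel]
  have hyc := hc hyk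
  have hx : s' * y = g * s * g⁻¹ := by rw [hy, mul_inv_cancel_left]
  obtain ⟨a, ha⟩ := S.isPGroup' ⟨s, hs⟩
  obtain ⟨b, hb⟩ := S.isPGroup' ⟨s', hs'⟩
  have ha' : s ^ p ^ a = 1 := congrArg Subtype.val ha
  have hb' : s' ^ p ^ b = 1 := congrArg Subtype.val hb
  have h3 : Commute s' y := (Subgroup.mem_center_iff.mp hyc s')
  have h4 : y ^ p ^ (a + b) = 1 := by
    have h5 : (s' * y) ^ p ^ (a + b) = 1 := by
      rw [hx, conj_pow, pow_add, pow_mul, ha', one_pow, mul_one, mul_inv_cancel]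
    rw [h3.mul_pow, pow_add, mul_comm (p ^ a), pow_mul, hb', one_pow, one_mul] at h5
    rw [pow_add, mul_comm (p ^ a)]
    exact h5
  rw [← hx]
  exact mul_mem hs' (cent_mem S hyc h4)

theorem nq_surj (hπ : Function.Surjective π) (hc : π.ker ≤ Subgroup.center G) (S : Sylow p G) :
    Function.Surjective (nq π (S : Subgroup G)) := by
  rintro ⟨k, hk⟩
  obtain ⟨g, rfl⟩ := hπ k
  refine ⟨⟨g, ?_⟩, Subtype.ext rfl⟩
  rw [Subgroup.mem_normalizer_iff]
  intro h
  refine ⟨fun hh => conj_S hc S hk hh, fun hh => ?_⟩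
  have h1 := conj_S hc S (g := g⁻¹) (by rw [map_inv]; exact inv_mem hk) hh
  have h2 : g⁻¹ * (g * h * g⁻¹) * g⁻¹⁻¹ = h := by group
  rwa [h2] at h1

theorem nq_cent (hc : π.ker ≤ Subgroup.center G) (D : Subgroup G) :
    (nq π D).ker ≤ Subgroup.center (Subgroup.normalizer (D : Set G)) := by
  intro n hn
  rw [Subgroup.mem_center_iff]
  intro m
  exact Subtype.ext (Subgroup.mem_center_iff.mp (hc (mem_ker_nq.mp hn)) m)

theorem dn_card' (hπ : Function.Surjective π) (hc : π.ker ≤ Subgroup.center G)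
    (r : (G → ℂ) → Prop) (r' : (Q → ℂ) → Prop)
    (hr : ∀ θ : Q → ℂ, r' θ ↔ r (fun x => θ (π x))) :
    Nat.card {θ // θ ∈ XP p Q ∧ r' θ} =
      Nat.card {θ // θ ∈ XP p G ∧ r θ ∧ ∀ z ∈ π.ker, θ z = θ 1} := by
  refine Nat.card_congr (Equiv.ofBijective
    (fun θ => (⟨fun x => θ.1 (π x), ⟨irr_surj π hπ θ.2.1.1, (deg_inf π _).mpr θ.2.1.2⟩,
      (hr _).mp θ.2.2, fun z hz => by
      change θ.1 (π z) = θ.1 (π 1)
      rw [MonoidHom.mem_ker.mp hz, map_one]⟩ :
        {θ // θ ∈ XP p G ∧ r θ ∧ ∀ z ∈ π.ker, θ z = θ 1})) ⟨?_, ?_⟩)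
  · intro θ θ' he
    refine Subtype.ext (funext fun k => ?_)
    obtain ⟨x, rfl⟩ := hπ k
    exact congrFun (congrArg Subtype.val he) x
  · rintro ⟨θ, h1, h2, h3⟩
    obtain ⟨ψ, h4, rfl⟩ := irr_desc hπ hc h1.1 h3
    exact ⟨⟨ψ, ⟨h4, (deg_inf π ψ).mp h1.2⟩, (hr _).mpr h2⟩, rfl⟩

theorem fixed_inf {H K : Type} [Group H] [Group K] {ρ : H →* K} (hρ : Function.Surjective ρ)
    (τ : ℂ ≃+* ℂ) (θ : K → ℂ) : FixedBy τ θ ↔ FixedBy τ fun x => θ (ρ x) := by
  constructor
  · exact fun h x => h (ρ x)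
  · intro h k
    obtain ⟨x, rfl⟩ := hρ k
    exact h x

theorem cnt_ker' (hπ : Function.Surjective π) (hc : π.ker ≤ Subgroup.center G) (S : Sylow p G)
    {L : Set (ℂ ≃+* ℂ)} {σ : ℂ ≃+* ℂ} {f : MulAut G} {fb : MulAut Q}
    (hS : ∀ s ∈ (S : Subgroup G), f s ∈ (S : Subgroup G))
    (hf : ∀ g, π (f g) = fb (π g))
    (h : Nat.card {θ // θ ∈ XP p Q ∧ RG L σ fb θ} = NumN p ((S : Subgroup G).map π) L σ fb) :
    Nat.card {θ // θ ∈ XP p G ∧ RG L σ f θ ∧ ∀ z ∈ π.ker, θ z = θ 1} =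
      Nat.card {θ // θ ∈ XP p (NS S) ∧ RN (S : Subgroup G) L σ f θ ∧
        ∀ z : NS S, (z : G) ∈ π.ker → θ z = θ 1} := by
  have e1 := dn_card' (p := p) hπ hc (RG L σ f) (RG L σ fb) (by
    intro θ
    unfold RG
    refine and_congr (forall₂_congr fun τ _ => fixed_inf hπ τ θ) ?_
    constructor
    · intro h1
      funext g
      change σ (θ (π g)) = θ (π (f g))
      rw [hf]
      exact congrFun h1 (π g)
    · intro h1
      funext k
      obtain ⟨g, rfl⟩ := hπ k
      rw [← hf]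
      exact congrFun h1 g)
  have hN := nq_surj hπ hc S
  have e2 := dn_card' (p := p) hN (nq_cent hc _) (RN (S : Subgroup G) L σ f)
    (RN ((S : Subgroup G).map π) L σ fb) (by
    intro θ
    unfold RN
    refine and_congr (forall₂_congr fun τ _ => fixed_inf hN τ θ) ?_
    constructor
    · intro h1 n n' hn
      apply h1
      rw [coe_nq, coe_nq, hn, hf]
    · intro h1 m m' hm
      obtain ⟨n, rfl⟩ := hN m
      have h2 := coe_resA (Subgroup.zpowers f).subtype (inv_z hS)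
        ⟨f, Subgroup.mem_zpowers f⟩ n
      have h3 := h1 n (resA (Subgroup.zpowers f).subtype (inv_z hS)
        ⟨f, Subgroup.mem_zpowers f⟩ n) h2
      have h4 : m' = nq π (S : Subgroup G) (resA (Subgroup.zpowers f).subtype (inv_z hS)
        ⟨f, Subgroup.mem_zpowers f⟩ n) := by
        apply Subtype.ext
        rw [hm, coe_nq, coe_nq, h2]
        exact (hf n).symm
      rw [h4]
      exact h3)
  unfold NumN at h
  refine e1.symm.trans (h.trans (e2.trans ?_))
  refine Nat.card_congr (Equiv.subtypeEquivRight fun θ => and_congr_right fun _ =>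
    and_congr_right fun _ => ?_)
  constructor
  · intro h1 z hz
    exact h1 z (mem_ker_nq.mpr hz)
  · intro h1 z hz
    exact h1 z (mem_ker_nq.mp hz)

end quo

section cl

variable {Z : Type} [Group Z]

theorem fcl_le' {f : Z →* Z} {Y : Subgroup Z} {w : Z →* ℂ} (hw : ∀ z ∈ w.ker, f z ∈ w.ker) :
    Y ≤ w.ker ↔ fcl f Y ≤ w.ker := by
  refine ⟨fun h => ?_, fun h => (le_fcl f Y).trans h⟩
  unfold fcl
  rw [Subgroup.closure_le]
  rintro z ⟨y, hy, i, rfl⟩
  have h1 : ∀ i : ℕ, f^[i] y ∈ w.ker := by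
    intro i
    induction i with
    | zero => exact h hy
    | succ i ih =>
      rw [Function.iterate_succ_apply']
      exact hw _ ih
  exact h1 i

end cl

section main

variable {G : Type} [Group G] [Finite G] {p : ℕ} [hp : Fact p.Prime]

/-- the action of an automorphism on the centre -/
def fC (f : MulAut G) : Subgroup.center G →* Subgroup.center G :=
  ((f.toMonoidHom).comp (Subgroup.center G).subtype).codRestrict (Subgroup.center G)
    fun z => aut_center f z.2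

/-- the centre as a subgroup of a normaliser -/
def jC' (D : Subgroup G) : Subgroup.center G →* Subgroup.normalizer (D : Set G) :=
  Subgroup.inclusion (Subgroup.center_le_normalizer _)

theorem jC'_cent (D : Subgroup G) (z : Subgroup.center G) :
    jC' D z ∈ Subgroup.center (Subgroup.normalizer (D : Set G)) := by
  rw [Subgroup.mem_center_iff]
  intro m
  exact Subtype.ext (Subgroup.mem_center_iff.mp z.2 m)

/-- the numbers agree for all quotients by central subgroups -/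
def Good (p : ℕ) [Fact p.Prime] {G : Type} [Group G] (S : Sylow p G) (L : Set (ℂ ≃+* ℂ))
    (σ : ℂ ≃+* ℂ) (f : MulAut G) : Prop :=
  ∀ (Y : Subgroup G) [Y.Normal], Y ≤ Subgroup.center G → ∀ fb : MulAut (G ⧸ Y),
    (∀ g, QuotientGroup.mk' Y (f g) = fb (QuotientGroup.mk' Y g)) → orderOf fb ∣ orderOf f →
    Nat.card {θ // θ ∈ XP p (G ⧸ Y) ∧ RG L σ fb θ} =
      NumN p ((S : Subgroup G).map (QuotientGroup.mk' Y)) L σ fb

theorem cnt_Y' (S : Sylow p G) {L : Set (ℂ ≃+* ℂ)} {σ : ℂ ≃+* ℂ} {f : MulAut G}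
    (hS : ∀ s ∈ (S : Subgroup G), f s ∈ (S : Subgroup G)) (hg : Good p S L σ f)
    (Y : Subgroup (Subgroup.center G)) :
    Nat.card {a : {θ // θ ∈ XP p G ∧ RG L σ f θ} // ∀ y ∈ Y, a.1 (y : G) / a.1 1 = 1} =
      Nat.card {a : {θ // θ ∈ XP p (NS S) ∧ RN (S : Subgroup G) L σ f θ} //
        ∀ y ∈ Y, a.1 (jC' (S : Subgroup G) y) / a.1 1 = 1} := by
  have := Fintype.ofFinite G
  set Yf := fcl (fC f) Y with hYf
  have hYg : Yf.map (Subgroup.center G).subtype ≤ Subgroup.center G := Subgroup.map_subtype_le Yf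
  have hnorm : (Yf.map (Subgroup.center G).subtype).Normal := by
    constructor
    intro n hn g
    have h1 := Subgroup.mem_center_iff.mp (hYg hn) g
    rw [h1, mul_assoc, mul_inv_cancel, mul_one]
    exact hn
  have := Fintype.ofFinite (G ⧸ Yf.map (Subgroup.center G).subtype)
  obtain ⟨fb, hfb, hfb'⟩ := quo_aut (Yf.map (Subgroup.center G).subtype) f (by
    rintro _ ⟨y, hy, rfl⟩
    exact ⟨fC f y, f_fcl _ _ y hy, rfl⟩)
  have e := cnt_ker' (p := p) (π := QuotientGroup.mk' (Yf.map (Subgroup.center G).subtype))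
    (QuotientGroup.mk'_surjective _) (by rw [QuotientGroup.ker_mk']; exact hYg) S hS hfb
    (hg _ hYg fb hfb hfb')
  rw [QuotientGroup.ker_mk'] at e
  -- the global side
  have g1 : ∀ a : {θ // θ ∈ XP p G ∧ RG L σ f θ}, (∀ y ∈ Y, a.1 (y : G) / a.1 1 = 1) ↔
      ∀ z ∈ Yf.map (Subgroup.center G).subtype, a.1 z = a.1 1 := by
    intro a
    have hi := a.2.1.1
    have h0 := hi.one_ne
    have h1 := fcl_le' (f := fC f) (Y := Y)
      (w := vh (Subgroup.center G).subtype (fun z => z.2) hi) (by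
        intro z hz
        rw [MonoidHom.mem_ker, vh_apply, div_one_iff h0] at hz ⊢
        have h2 := congrFun a.2.2.2 (z : G)
        have h3 := congrFun a.2.2.2 1
        rw [map_one] at h3
        change a.1 (f z) = a.1 1
        rw [← h3]
        exact h2.symm.trans (congrArg σ hz))
    constructor
    · intro h
      rintro _ ⟨z, hz, rfl⟩
      have h2 := h1.mp (fun y hy => h y hy) hz
      exact (div_one_iff h0).mp h2
    · intro h y hy
      exact (div_one_iff h0).mpr (h _ ⟨y, le_fcl _ _ hy, rfl⟩)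
  have g2 : ∀ a : {θ // θ ∈ XP p (NS S) ∧ RN (S : Subgroup G) L σ f θ},
      (∀ y ∈ Y, a.1 (jC' (S : Subgroup G) y) / a.1 1 = 1) ↔
      ∀ z : NS S, (z : G) ∈ Yf.map (Subgroup.center G).subtype → a.1 z = a.1 1 := by
    intro a
    have hi := a.2.1.1
    have h0 := hi.one_ne
    have h1 := fcl_le' (f := fC f) (Y := Y)
      (w := vh (jC' (S : Subgroup G)) (jC'_cent (S : Subgroup G)) hi) (by
        intro z hz
        rw [MonoidHom.mem_ker, vh_apply, div_one_iff h0] at hz ⊢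
        have h2 := a.2.2.2 (jC' (S : Subgroup G) z) (jC' (S : Subgroup G) (fC f z)) rfl
        have h3 := a.2.2.2 1 1 (by
          change (1 : G) = f 1
          rw [map_one])
        rw [← h2, ← h3, hz])
    constructor
    · intro h z hz
      obtain ⟨y, hy, he⟩ := hz
      have h2 := h1.mp (fun y hy => h y hy) hy
      have h3 : z = jC' (S : Subgroup G) y := Subtype.ext he.symm
      rw [h3]
      exact (div_one_iff h0).mp h2
    · intro h y hy
      exact (div_one_iff h0).mpr (h _ ⟨y, le_fcl _ _ hy, rfl⟩)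
  have e1 : Nat.card {a : {θ // θ ∈ XP p G ∧ RG L σ f θ} //
      ∀ y ∈ Y, a.1 (y : G) / a.1 1 = 1} =
      Nat.card {θ // θ ∈ XP p G ∧ RG L σ f θ ∧
        ∀ z ∈ Yf.map (Subgroup.center G).subtype, θ z = θ 1} :=
    Nat.card_congr
      { toFun := fun a => ⟨a.1.1, a.1.2.1, a.1.2.2, (g1 a.1).mp a.2⟩
        invFun := fun θ => ⟨⟨θ.1, θ.2.1, θ.2.2.1⟩, (g1 ⟨θ.1, θ.2.1, θ.2.2.1⟩).mpr θ.2.2.2⟩
        left_inv := fun _ => rfl
        right_inv := fun _ => rfl }
  have e2 : Nat.card {a : {θ // θ ∈ XP p (NS S) ∧ RN (S : Subgroup G) L σ f θ} //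
      ∀ y ∈ Y, a.1 (jC' (S : Subgroup G) y) / a.1 1 = 1} =
      Nat.card {θ // θ ∈ XP p (NS S) ∧ RN (S : Subgroup G) L σ f θ ∧
        ∀ z : NS S, (z : G) ∈ Yf.map (Subgroup.center G).subtype → θ z = θ 1} :=
    Nat.card_congr
      { toFun := fun a => ⟨a.1.1, a.1.2.1, a.1.2.2, (g2 a.1).mp a.2⟩
        invFun := fun θ => ⟨⟨θ.1, θ.2.1, θ.2.2.1⟩, (g2 ⟨θ.1, θ.2.1, θ.2.2.1⟩).mpr θ.2.2.2⟩
        left_inv := fun _ => rfl
        right_inv := fun _ => rfl }
  rw [e1, e2]
  exact e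

theorem gal_move' {H Z : Type} [Group H] [Finite H] [Group Z] (j : Z →* H) (r : (H → ℂ) → Prop)
    (hr : ∀ (σ : ℂ ≃+* ℂ) (θ : H → ℂ), IsIrr θ → r θ → r (fun g => σ (θ g))) (σ : ℂ ≃+* ℂ) :
    ∃ e : {θ // θ ∈ XP p H ∧ r θ} → {θ // θ ∈ XP p H ∧ r θ}, Function.Injective e ∧
      ∀ a z, (e a).1 (j z) / (e a).1 1 = σ (a.1 (j z) / a.1 1) := by
  refine ⟨fun θ => ⟨fun g => σ (θ.1 g), stable_XP {σ} σ rfl _ θ.2.1, hr σ _ θ.2.1.1 θ.2.2⟩, ?_, ?_⟩
  · intro θ θ' h
    exact Subtype.ext (funext fun g => σ.injective (congrFun (congrArg Subtype.val h) g))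
  · intro θ z
    change σ (θ.1 (j z)) / σ (θ.1 1) = _
    rw [← map_div₀]

/-- **The numbers of fixed characters above a given character of the centre.** -/
theorem cnt_Z' (S : Sylow p G) {L : Set (ℂ ≃+* ℂ)} {σ : ℂ ≃+* ℂ} {f : MulAut G}
    (hS : ∀ s ∈ (S : Subgroup G), f s ∈ (S : Subgroup G)) (hg : Good p S L σ f)
    (l : Subgroup.center G → ℂ) :
    Nat.card {a : {θ // θ ∈ XP p G ∧ RG L σ f θ} //
        (fun z : Subgroup.center G => a.1 (z : G) / a.1 1) = l} =
      Nat.card {a : {θ // θ ∈ XP p (NS S) ∧ RN (S : Subgroup G) L σ f θ} //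
        (fun z : Subgroup.center G => a.1 (jC' (S : Subgroup G) z) / a.1 1) = l} := by
  have := Fintype.ofFinite G
  have i1 : Finite (XP p G) := finite_of_irr fun θ hθ => hθ.1
  have i2 : Finite (XP p (NS S)) := finite_of_irr fun θ hθ => hθ.1
  have i3 : Finite {θ // θ ∈ XP p G ∧ RG L σ f θ} :=
    Finite.of_injective (fun θ => (⟨θ.1, θ.2.1⟩ : XP p G)) fun θ θ' h =>
      Subtype.ext (congrArg (fun x : XP p G => x.1) h)
  have i4 : Finite {θ // θ ∈ XP p (NS S) ∧ RN (S : Subgroup G) L σ f θ} :=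
    Finite.of_injective (fun θ => (⟨θ.1, θ.2.1⟩ : XP p (NS S))) fun θ θ' h =>
      Subtype.ext (congrArg (fun x : XP p (NS S) => x.1) h)
  let v : {θ // θ ∈ XP p G ∧ RG L σ f θ} → (Subgroup.center G →* ℂ) := fun a =>
    vh (Subgroup.center G).subtype (fun z => z.2) a.2.1.1
  let v' : {θ // θ ∈ XP p (NS S) ∧ RN (S : Subgroup G) L σ f θ} → (Subgroup.center G →* ℂ) :=
    fun a => vh (jC' (S : Subgroup G)) (jC'_cent (S : Subgroup G)) a.2.1.1
  by_cases hl : ∃ l' : Subgroup.center G →* ℂ, (l' : Subgroup.center G → ℂ) = l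
  · obtain ⟨l', rfl⟩ := hl
    have h1 := col_count' v v' (fun Y => cnt_Y' S hS hg Y)
      (fun i => by
        obtain ⟨e, he, he'⟩ := gal_move' (p := p) (Subgroup.center G).subtype (RG L σ f)
          (fun κ θ hθ h => by
            refine ⟨fun τ hτ g => ?_, ?_⟩
            · rw [gal_comm τ κ hθ, h.1 τ hτ g]
            · funext g
              rw [gal_comm σ κ hθ]
              exact congrArg κ (congrFun h.2 g)) i
        exact ⟨e, he, he'⟩)
      (fun i => by
        obtain ⟨e, he, he'⟩ := gal_move' (p := p) (jC' (S : Subgroup G))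
          (RN (S : Subgroup G) L σ f) (fun κ θ hθ h => by
            refine ⟨fun τ hτ g => ?_, fun n n' hn => ?_⟩
            · rw [gal_comm τ κ hθ, h.1 τ hτ g]
            · rw [gal_comm σ κ hθ]
              exact congrArg κ (h.2 n n' hn)) i
        exact ⟨e, he, he'⟩) l'
    have e1 : Nat.card {a // v a = l'} = Nat.card {a : {θ // θ ∈ XP p G ∧ RG L σ f θ} //
        (fun z : Subgroup.center G => a.1 (z : G) / a.1 1) = l'} :=
      Nat.card_congr (Equiv.subtypeEquivRight fun a =>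
        ⟨fun h => congrArg (fun w : Subgroup.center G →* ℂ => (w : Subgroup.center G → ℂ)) h,
          fun h => DFunLike.coe_injective h⟩)
    have e2 : Nat.card {a // v' a = l'} =
        Nat.card {a : {θ // θ ∈ XP p (NS S) ∧ RN (S : Subgroup G) L σ f θ} //
        (fun z : Subgroup.center G => a.1 (jC' (S : Subgroup G) z) / a.1 1) = l'} :=
      Nat.card_congr (Equiv.subtypeEquivRight fun a =>
        ⟨fun h => congrArg (fun w : Subgroup.center G →* ℂ => (w : Subgroup.center G → ℂ)) h,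
          fun h => DFunLike.coe_injective h⟩)
    rw [← e1, ← e2]
    exact h1
  · have e1 : IsEmpty {a : {θ // θ ∈ XP p G ∧ RG L σ f θ} //
        (fun z : Subgroup.center G => a.1 (z : G) / a.1 1) = l} := ⟨fun a => hl ⟨v a.1, a.2⟩⟩
    have e2 : IsEmpty {a : {θ // θ ∈ XP p (NS S) ∧ RN (S : Subgroup G) L σ f θ} //
        (fun z : Subgroup.center G => a.1 (jC' (S : Subgroup G) z) / a.1 1) = l} :=
      ⟨fun a => hl ⟨v' a.1, a.2⟩⟩
    rw [Nat.card_of_isEmpty, Nat.card_of_isEmpty]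

end main

end Pool.Agent.V8H56.MA
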