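import Pool.Agent.V8H56.MA.Two
import Pool.Agent.V8H56.MA.Quo

/-!
# Bijections compatible with an automorphism and with Galois automorphisms
-/

set_option autoImplicit false
set_option linter.unusedSectionVars false

open scoped BigOperators Classical

noncomputable section

namespace Pool.Agent.V8H56.MA

open Pool.Agent.Q90.WR Pool.Agent.H254R3.IN Pool.Agent.Q259.BW Pool.Agent.Q288.MB
open Pool.Agent.Helper884 Pool.Agent.N19.RB Pool.Agent.N84.MG Pool.Agent.V8H56.EQ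
open Pool.Agent.V8H56.BF (resA coe_resA inv_iff)

section good

variable {G : Type} [Group G] [Finite G] {p : ℕ} [hp : Fact p.Prime]

theorem good (hX : ∀ (Y : Subgroup G) [Y.Normal], Y ≤ Subgroup.center G →
      ∀ (H : Type) [Group H] [Finite H] (T : Sylow p H), Ext p (G ⧸ Y) H →
        EquivBij (HG p H) (XP p H) (XP p (NS T))) (S : Sylow p G) {σ : ℂ ≃+* ℂ}
    (hσ : σ ∈ HG p G) {L : Set (ℂ ≃+* ℂ)} (hL : ∀ τ ∈ L, τ ∈ IG p G) {f : MulAut G}
    (hf : ¬ p ∣ orderOf f)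
    (hS : ∀ s ∈ (S : Subgroup G), f s ∈ (S : Subgroup G)) : Good p S L σ f := by
  intro Y _ hY fb hfb hord
  obtain ⟨S', hS'⟩ : ∃ S' : Sylow p (G ⧸ Y),
      (S' : Subgroup (G ⧸ Y)) = (S : Subgroup G).map (QuotientGroup.mk' Y) :=
    ⟨S.mapSurjective (QuotientGroup.mk'_surjective Y), rfl⟩
  have hd : Nat.card (G ⧸ Y) / p ^ (Nat.card (G ⧸ Y)).factorization p ∣
      Nat.card G / p ^ (Nat.card G).factorization p :=
    Nat.ordCompl_dvd_ordCompl_of_dvd (Subgroup.card_quotient_dvd_card Y) p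
  have hr : ∀ ξ : ℂ, ξ ^ (Nat.card (G ⧸ Y) / p ^ (Nat.card (G ⧸ Y)).factorization p) = 1 →
      ξ ^ (Nat.card G / p ^ (Nat.card G).factorization p) = 1 := by
    intro ξ hξ
    obtain ⟨k, hk⟩ := hd
    rw [hk, pow_mul, hξ, one_pow]
  rw [← hS']
  have h := joint (G ⧸ Y) (hX Y hY) S' (σ := σ) (L := L) (f := fb)
    (by
      obtain ⟨e, he⟩ := hσ
      exact ⟨e, fun ξ hξ => he ξ (hr ξ hξ)⟩)
    (fun τ hτ ξ hξ => hL τ hτ ξ (hr ξ hξ)) (fun hpd => hf (hpd.trans hord)) (by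
      intro s hs
      rw [hS'] at hs ⊢
      obtain ⟨s₀, hs₀, rfl⟩ := hs
      exact ⟨f s₀, hS s₀ hs₀, hfb s₀⟩)
  unfold NumN
  refine Eq.trans (Nat.card_congr (Equiv.subtypeEquivRight fun θ => ?_))
    (h.trans (Nat.card_congr (Equiv.subtypeEquivRight fun θ => ?_)))
  · exact ⟨fun h => ⟨⟨h.1, h.2.1⟩, h.2.2⟩, fun h => ⟨h.1.1, h.1.2, h.2⟩⟩
  · exact ⟨fun h => ⟨h.1.1, h.1.2, h.2⟩, fun h => ⟨⟨h.1, h.2.1⟩, h.2.2⟩⟩

end good

section perm

variable {H : Type} [Group H] [Finite H] {p : ℕ} [hp : Fact p.Prime]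

theorem XP_gal {θ : H → ℂ} (τ : ℂ ≃+* ℂ) (h : θ ∈ XP p H) : (fun g => τ (θ g)) ∈ XP p H :=
  stable_XP {τ} τ rfl _ h

theorem XP_aut {θ : H → ℂ} (f : MulAut H) (h : θ ∈ XP p H) : (fun g => θ (f g)) ∈ XP p H :=
  ⟨irr_comp f h.1, (deg_inf f.toMonoidHom θ).mpr h.2⟩

/-- the action of the Galois automorphisms -/
def gp (p : ℕ) [Fact p.Prime] (H : Type) [Group H] [Finite H] :
    (ℂ ≃+* ℂ) →* Equiv.Perm (XP p H) where
  toFun τ := ⟨fun θ => ⟨fun g => τ (θ.1 g), XP_gal τ θ.2⟩,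
    fun θ => ⟨fun g => τ.symm (θ.1 g), XP_gal τ.symm θ.2⟩,
    fun θ => Subtype.ext (funext fun g => τ.symm_apply_apply (θ.1 g)),
    fun θ => Subtype.ext (funext fun g => τ.apply_symm_apply (θ.1 g))⟩
  map_one' := Equiv.ext fun θ => rfl
  map_mul' a b := Equiv.ext fun θ => rfl

/-- the action of an automorphism -/
def ap (f : MulAut H) : Equiv.Perm (XP p H) :=
  ⟨fun θ => ⟨fun g => θ.1 (f g), XP_aut f θ.2⟩,
    fun θ => ⟨fun g => θ.1 (f.symm g), XP_aut f.symm θ.2⟩,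
    fun θ => Subtype.ext (funext fun g => congrArg θ.1 (f.apply_symm_apply g)),
    fun θ => Subtype.ext (funext fun g => congrArg θ.1 (f.symm_apply_apply g))⟩

/-- the action of a pair -/
def tp (σ : ℂ ≃+* ℂ) (f : MulAut H) : Equiv.Perm (XP p H) := gp p H σ * ap f

theorem gp_val (τ : ℂ ≃+* ℂ) (θ : XP p H) : (gp p H τ θ).1 = fun g => τ (θ.1 g) := rfl

theorem ga_val (τ : ℂ ≃+* ℂ) (f : MulAut H) (θ : XP p H) :
    (tp τ f θ).1 = fun g => τ (θ.1 (f g)) := rfl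

theorem gp_comm (σ τ : ℂ ≃+* ℂ) : gp p H σ * gp p H τ = gp p H τ * gp p H σ :=
  Equiv.ext fun θ => Subtype.ext (funext fun g => gal_comm σ τ θ.2.1 g)

theorem gp_ga (τ σ : ℂ ≃+* ℂ) (f : MulAut H) :
    gp p H τ * tp σ f = tp σ f * gp p H τ :=
  Equiv.ext fun θ => Subtype.ext (funext fun g => gal_comm τ σ θ.2.1 (f g))

theorem ga_pow (σ : ℂ ≃+* ℂ) (f : MulAut H) (k : ℕ) (θ : XP p H) :
    ((tp σ f ^ k) θ).1 = fun g => (σ ^ k) (θ.1 ((f ^ k) g)) := by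
  induction k generalizing θ with
  | zero => rfl
  | succ k ih =>
    rw [pow_succ', Equiv.Perm.mul_apply, ga_val, ih]
    funext g
    rw [pow_succ' σ, pow_succ f, MulAut.mul_apply]
    rfl

/-- fixed characters -/
theorem fix_iff (τ σ : ℂ ≃+* ℂ) (f : MulAut H) (k : ℕ) {o : ℕ} (ho : f ^ o = 1) (ho' : 0 < o)
    (θ : XP p H) : gp p H τ ((tp σ f ^ k) θ) = θ ↔
      ∀ g, (τ * σ ^ k) (θ.1 g) = θ.1 ((f ^ (k * (o - 1))) g) := by
  have h1 : ∀ g, (f ^ k) ((f ^ (k * (o - 1))) g) = g := by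
    intro g
    rw [← MulAut.mul_apply, ← pow_add]
    have h2 : k + k * (o - 1) = o * k := by
      obtain ⟨o', rfl⟩ : ∃ o', o = o' + 1 := ⟨o - 1, by omega⟩
      rw [Nat.add_sub_cancel]
      ring
    rw [h2, pow_mul, ho, one_pow]
    rfl
  have h1' : ∀ g, (f ^ (k * (o - 1))) ((f ^ k) g) = g := by
    intro g
    rw [← MulAut.mul_apply, ← pow_add, add_comm, pow_add, MulAut.mul_apply, h1]
  have h3 : (gp p H τ ((tp σ f ^ k) θ)).1 =
      fun g => (τ * σ ^ k) (θ.1 ((f ^ k) g)) := by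
    rw [gp_val, ga_pow]
    rfl
  constructor
  · intro h g
    have h4 := congrArg Subtype.val h
    rw [h3] at h4
    have h5 := congrFun h4 ((f ^ (k * (o - 1))) g)
    rw [h1] at h5
    exact h5
  · intro h
    apply Subtype.ext
    rw [h3]
    funext g
    rw [h, h1']

theorem lin_XP {Z : Type} [Group Z] [Finite Z] (w : Z →* ℂ) : (fun z => w z) ∈ XP p Z := by
  have := Fintype.ofFinite Z
  refine ⟨irr_lin (map_one w) (map_mul w), 1, ?_, ?_⟩
  · change ((1 : ℕ) : ℂ) = w 1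
    rw [map_one, Nat.cast_one]
  · exact fun h => hp.out.one_lt.ne' (Nat.dvd_one.mp h)

end perm

end Pool.Agent.V8H56.MA
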