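import Pool.Agent.V8H56.MA.Chr

/-!
# The groups `(C × G^ι) ⋊ P`: Sylow subgroups, their normalizers and the factor group by `C`
-/

set_option autoImplicit false
set_option linter.unusedSectionVars false

open scoped BigOperators Classical

noncomputable section

namespace Pool.Agent.V8H56.MA

open Pool.Agent.Q90.WR Pool.Agent.H254R3.IN Pool.Agent.Q259.BW Pool.Agent.Q288.MB
open Pool.Agent.Helper884 Pool.Agent.N19.RB Pool.Agent.N84.MG Pool.Agent.V8H56.EQ
open Pool.Agent.V8H56.BF (resA coe_resA inv_iff)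

open SemidirectProduct (inl)

section norm

variable {ι C G P : Type} [CommGroup C] [Group G] [Group P] [Fintype ι]
  [Fintype C] [Fintype G] [Fintype P]

/-- the normaliser of `E × D^ι` -/
theorem mem_normE {α : P →* MulAut C} {φ : P →* MulAut G} {E : Subgroup C} (hE : Inv α E)
    {D : Subgroup G} (hI : Inv φ D)
    {x : NO ι C G ⋊[actG ι α φ] P} :
    x ∈ Subgroup.normalizer (DW (actG ι α φ) (piS (sgO (ι := ι) E D)) :
      Set (NO ι C G ⋊[actG ι α φ] P)) ↔
      ∀ i, gO x.left i ∈ Subgroup.normalizer (D : Set G) := by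
  rw [Subgroup.mem_normalizer_iff]
  constructor
  · intro h i
    rw [Subgroup.mem_normalizer_iff]
    intro d
    have h1 := h (inl (mkO 1 (Function.update 1 i (φ x.right⁻¹ d))))
    rw [conj_inl, mem_DW, mem_DW] at h1
    simp only [SemidirectProduct.left_inl, SemidirectProduct.right_inl, and_true] at h1
    rw [mem_DO, mem_DO] at h1
    have e0 : φ x.right (φ x.right⁻¹ d) = d := by
      rw [← MulAut.mul_apply, ← map_mul, mul_inv_cancel, map_one, MulAut.one_apply]
    have e1 : cO (x.left * actG ι α φ x.right (mkO 1 (Function.update 1 i (φ x.right⁻¹ d))) *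
        x.left⁻¹) ∈ E := by
      simp only [cO_mul, cO_inv, cO_actG, cO_mk, map_one, mul_one, mul_inv_cancel]
      exact E.one_mem
    constructor
    · intro hd
      have h2 := (h1.mp ⟨by rw [cO_mk]; exact E.one_mem, fun k => by
        rw [gO_mk]
        by_cases hk : k = i
        · rw [hk, Function.update_self]
          exact hI _ _ hd
        · rw [Function.update_of_ne hk]
          exact D.one_mem⟩).2 i
      simp only [gO_mul, gO_inv, gO_actG, gO_mk, Function.update_self, e0] at h2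
      exact h2
    · intro hd
      have h2 := (h1.mpr ⟨e1, fun k => by
        simp only [gO_mul, gO_inv, gO_actG, gO_mk]
        by_cases hk : k = i
        · rw [hk, Function.update_self, e0]
          exact hd
        · rw [Function.update_of_ne hk]
          simp⟩).2 i
      simp only [gO_mk, Function.update_self] at h2
      exact (inv_iff hI _ _).mp h2
  · intro h y
    by_cases hy : y.right = 1
    · rw [eq_inl hy, conj_inl, mem_DW, mem_DW]
      simp only [SemidirectProduct.left_inl, SemidirectProduct.right_inl, and_true]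
      rw [mem_DO, mem_DO]
      have e1 : cO (x.left * actG ι α φ x.right y.left * x.left⁻¹) =
          α x.right (cO y.left) := by
        simp only [cO_mul, cO_inv, cO_actG]
        rw [mul_comm (cO x.left), mul_inv_cancel_right]
      constructor
      · rintro ⟨h1, h2⟩
        refine ⟨by rw [e1]; exact hE _ _ h1, fun i => ?_⟩
        simp only [gO_mul, gO_inv, gO_actG]
        exact (Subgroup.mem_normalizer_iff.mp (h i) _).mp (hI _ _ (h2 _))
      · rintro ⟨h1, h2⟩
        refine ⟨?_, fun i => ?_⟩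
        · rw [e1] at h1
          exact (inv_iff hE _ _).mp h1
        have h3 := h2 i
        simp only [gO_mul, gO_inv, gO_actG] at h3
        exact (inv_iff hI _ _).mp ((Subgroup.mem_normalizer_iff.mp (h _) _).mpr h3)
    · rw [mem_DW, mem_DW]
      constructor
      · intro h1
        exact absurd h1.2 hy
      · intro h1
        exfalso
        apply hy
        have h2 := h1.2
        simp only [SemidirectProduct.mul_right, SemidirectProduct.inv_right] at h2
        exact conj_eq_one_iff.mp h2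

/-- the normaliser of `E × D^ι` is `(C × N_G(D)^ι) ⋊ P` -/
def normE (ι : Type) {α : P →* MulAut C} {φ : P →* MulAut G} {E : Subgroup C} (hE : Inv α E)
    {D : Subgroup G} (hI : Inv φ D) [Fintype ι] :
    Subgroup.normalizer (DW (actG ι α φ) (piS (sgO (ι := ι) E D)) :
      Set (NO ι C G ⋊[actG ι α φ] P)) ≃*
      NO ι C (Subgroup.normalizer (D : Set G)) ⋊[actG ι α (resA φ hI)] P where
  toFun x := ⟨mkO (cO x.1.left) (fun i => ⟨gO x.1.left i, (mem_normE hE hI).mp x.2 i⟩), x.1.right⟩
  invFun y := ⟨⟨mkO (cO y.left)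
      (fun i => (gO (G := Subgroup.normalizer (D : Set G)) y.left i : G)), y.right⟩,
    (mem_normE hE hI).mpr fun i => (gO (G := Subgroup.normalizer (D : Set G)) y.left i).2⟩
  left_inv x := by
    apply Subtype.ext
    ext1
    · apply ext_O
      · rfl
      · intro i
        rfl
    · rfl
  right_inv y := by
    ext1
    · apply ext_O
      · rfl
      · intro i
        rfl
    · rfl
  map_mul' x y := by
    ext1
    · apply ext_O
      · rfl
      · intro i
        rfl
    · rfl

variable {p : ℕ} [hp : Fact p.Prime]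

/-- the Sylow subgroup and its normaliser -/
theorem exists_norm {α : P →* MulAut C} {φ : P →* MulAut G} (hP : ¬ p ∣ Nat.card P)
    (S : Sylow p G) (hI : Inv φ (S : Subgroup G)) :
    ∃ T : Sylow p (NO ι C G ⋊[actG ι α φ] P),
      Nonempty (Subgroup.normalizer ((T : Subgroup (NO ι C G ⋊[actG ι α φ] P)) :
        Set (NO ι C G ⋊[actG ι α φ] P)) ≃*
        NO ι C (Subgroup.normalizer ((S : Subgroup G) : Set G)) ⋊[actG ι α (resA φ hI)] P) := by
  set E : Sylow p C := default with hE
  have hn : (E : Subgroup C).Normal := inferInstance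
  have hc : (E : Subgroup C).Characteristic := Sylow.characteristic_of_normal E hn
  have hEI : Inv α (E : Subgroup C) := by
    intro t d hd
    have h1 : (E : Subgroup C).map (α t).toMonoidHom = E :=
      Subgroup.characteristic_iff_map_eq.mp hc (α t)
    rw [← h1]
    exact ⟨d, hd, rfl⟩
  have h1 : IsPGroup p (DW (actG ι α φ) (piS (sgO (ι := ι) (E : Subgroup C) (S : Subgroup G)))) := by
    apply IsPGroup.map
    apply isPGroup_piS
    intro o
    cases o with
    | none => exact E.isPGroup'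
    | some i => exact S.isPGroup'
  have h2 : ¬ p ∣ (DW (actG ι α φ)
      (piS (sgO (ι := ι) (E : Subgroup C) (S : Subgroup G)))).index := by
    rw [index_DW, index_piS]
    intro h
    rcases (Nat.Prime.dvd_mul hp.out).mp h with h | h
    · exact hP h
    · refine not_dvd_prod ?_ h
      intro o
      cases o with
      | none => exact E.not_dvd_index
      | some i => exact S.not_dvd_index
  exact ⟨h1.toSylow h2, ⟨normE ι hEI hI⟩⟩

end norm

section quo

variable {M : ℕ} [NeZero M] {P ι G : Type} [Group P] [Group G] [Fintype P]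
  [Fintype ι] [Fintype G] {p : ℕ} [hp : Fact p.Prime] {c : P →* (ZMod M)ˣ} {φ : P →* MulAut G}

/-- inflated characters lie above the trivial character -/
theorem abv_inf {χ₀ : NO ι Unit G ⋊[actG ι (1 : P →* MulAut Unit) φ] P → ℂ} (h₀ : IsIrr χ₀)
    {u : ZMod M} (h : Abv u fun x => χ₀ (pG ι ((aU M).comp c) φ x)) : u = 0 := by
  obtain ⟨τ, hτ, h1⟩ := h
  have hχ := irr_surj (pG ι ((aU M).comp c) φ) pG_surj h₀
  set χ : NO ι (CD M) G ⋊[actG ι ((aU M).comp c) φ] P → ℂ :=
    fun x => χ₀ (pG ι ((aU M).comp c) φ x) with hχd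
  set a : CD M := Multiplicative.ofAdd (1 : ZMod M) with ha
  set z : NO ι (CD M) G := jC ι G a with hz
  have hker : (inl z : NO ι (CD M) G ⋊[actG ι ((aU M).comp c) φ] P) ∈
      (pG ι ((aU M).comp c) φ).ker := mem_ker_pG.mpr (mem_ZG.mpr ⟨a, rfl⟩)
  have hz1 : ∀ n : NO ι (CD M) G, χ (inl (z * n)⁻¹) = χ (inl n⁻¹) := by
    intro n
    have e : pG ι ((aU M).comp c) φ (inl (z * n)⁻¹) = pG ι ((aU M).comp c) φ (inl n⁻¹) := by
      have e1 : (inl (z * n)⁻¹ : NO ι (CD M) G ⋊[actG ι ((aU M).comp c) φ] P) =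
          inl n⁻¹ * (inl z)⁻¹ := by
        rw [mul_inv_rev, map_mul, map_inv inl z]
      rw [e1, map_mul, MonoidHom.mem_ker.mp (inv_mem hker), mul_one]
    exact congrArg χ₀ e
  unfold ind at h1
  rw [B_indP _ hχ.conj] at h1
  set θ := tens (fo (nu u) τ) with hθ
  have h2 : IC.B θ (fun n => χ (inl n)) = nu u a * IC.B θ (fun n => χ (inl n)) := by
    conv_lhs => unfold IC.B
    have h3 : ∑ n, θ n * χ (inl n⁻¹) = nu u a * ∑ n, θ n * χ (inl n⁻¹) := by
      rw [Finset.mul_sum]
      refine (Fintype.sum_equiv (Equiv.mulLeft z) _ _ fun n => ?_).symm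
      rw [Equiv.coe_mulLeft, hz1, hθ, hz, tens_jCn]
      ring
    rw [h3]
    unfold IC.B
    ring
  have h4 : nu u a = 1 := by
    have h5 : (nu u a - 1) * IC.B θ (fun n => χ (inl n)) = 0 := by
      rw [sub_mul, one_mul, ← h2, sub_self]
    rcases mul_eq_zero.mp h5 with h6 | h6
    · exact sub_eq_zero.mp h6
    · exact absurd h6 h1
  have h5 : u * (1 : ZMod M) = 0 := by
    apply ZMod.injective_stdAddChar (N := M)
    rw [AddChar.map_zero_eq_one]
    exact h4
  rwa [mul_one] at h5

/-- characters above the trivial character are inflated -/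
theorem inf_abv {χ : NO ι (CD M) G ⋊[actG ι ((aU M).comp c) φ] P → ℂ} (hχ : IsIrr χ)
    (h : Abv (0 : ZMod M) χ) :
    ∃ χ₀ : NO ι Unit G ⋊[actG ι (1 : P →* MulAut Unit) φ] P → ℂ,
      IsIrr χ₀ ∧ χ = fun x => χ₀ (pG ι ((aU M).comp c) φ x) := by
  refine descend (pG ι ((aU M).comp c) φ) pG_surj hχ fun x d hd => ?_
  refine inker hχ (MonoidHom.normal_ker _) (fun y hy => ZG_right (mem_ker_pG.mp hy)) ?_ x hd
  intro θ hθ h0 n hn
  obtain ⟨v, τ, hτ, rfl⟩ := exists_fo hθ
  obtain ⟨t, ht⟩ := abv_orbit hχ h ⟨τ, hτ, h0⟩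
  rw [mul_zero] at ht
  subst ht
  obtain ⟨a, rfl⟩ := inl_mem_ZG.mp (mem_ker_pG.mp hn)
  have h5 := tens_jCn (0 : ZMod M) τ a 1
  have h6 : nu (0 : ZMod M) a = 1 := by
    unfold nu
    rw [zero_mul, AddChar.map_zero_eq_one]
  rw [mul_one, h6, one_mul] at h5
  exact h5

theorem deg_inf {H K : Type} [Group H] [Group K] (π : H →* K) (χ : K → ℂ) :
    PrimeDeg p (fun x => χ (π x)) ↔ PrimeDeg p χ := by
  unfold PrimeDeg
  simp only [map_one]

/-- the characters above the trivial character -/
theorem card_triv [hM : Fact M.Prime] (L : Set (ℂ ≃+* ℂ)) :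
    Nat.card {χ : NO ι (CD M) G ⋊[actG ι ((aU M).comp c) φ] P → ℂ //
      χ ∈ Fx L (XP p (NO ι (CD M) G ⋊[actG ι ((aU M).comp c) φ] P)) ∧
      ¬ ∃ u : (ZMod M)ˣ, Abv (u : ZMod M) χ} =
      Nat.card (Fx L (XP p (NO ι Unit G ⋊[actG ι (1 : P →* MulAut Unit) φ] P))) := by
  refine (Nat.card_congr (Equiv.ofBijective
    (fun χ : Fx L (XP p (NO ι Unit G ⋊[actG ι (1 : P →* MulAut Unit) φ] P)) =>
      (⟨fun x => χ.1 (pG ι ((aU M).comp c) φ x),
        ⟨⟨irr_surj (pG ι ((aU M).comp c) φ) pG_surj χ.2.1.1, (deg_inf _ _).mpr χ.2.1.2⟩,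
          fun τ hτ x => χ.2.2 τ hτ _⟩, ?_⟩ :
        {χ : NO ι (CD M) G ⋊[actG ι ((aU M).comp c) φ] P → ℂ //
          χ ∈ Fx L (XP p (NO ι (CD M) G ⋊[actG ι ((aU M).comp c) φ] P)) ∧
          ¬ ∃ u : (ZMod M)ˣ, Abv (u : ZMod M) χ}))
    ⟨?_, ?_⟩)).symm
  · rintro ⟨u, hu⟩
    have h1 := abv_inf χ.2.1.1 hu
    exact u.ne_zero h1
  · intro χ χ' he
    refine Subtype.ext (funext fun y => ?_)
    obtain ⟨x, rfl⟩ := pG_surj (α := (aU M).comp c) y
    exact congrFun (congrArg Subtype.val he) x
  · rintro ⟨χ, h1, h2⟩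
    obtain ⟨u, hu⟩ := exists_abv h1.1.1
    have hu0 : u = 0 := by
      by_contra hne
      exact h2 ⟨Units.mk0 u hne, by rwa [Units.val_mk0]⟩
    subst hu0
    obtain ⟨χ₀, h3, rfl⟩ := inf_abv h1.1.1 hu
    refine ⟨⟨χ₀, ⟨h3, (deg_inf (pG ι ((aU M).comp c) φ) χ₀).mp h1.1.2⟩, fun τ hτ y => ?_⟩, rfl⟩
    obtain ⟨x, rfl⟩ := pG_surj (α := (aU M).comp c) y
    exact h1.2 τ hτ x

end quo

end Pool.Agent.V8H56.MA
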