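import Mathlib

/-!
# Primes modulo which a power of `p` has a given order
-/

set_option autoImplicit false

noncomputable section

namespace Pool.Agent.V8H56.MA

theorem exists_l (N : ℕ) : ∃ l₁ l₀ : ℕ, l₁.Prime ∧ l₀.Prime ∧ N < l₁ ∧ l₁ < l₀ ∧
    ¬ l₁ ∣ l₀ - 1 := by
  obtain ⟨l₁, h1, h2⟩ := Nat.exists_infinite_primes (N + 3)
  obtain ⟨l₀, h3, h4, h5⟩ := Nat.exists_prime_lt_and_le_two_mul l₁ h2.pos.ne'
  refine ⟨l₁, l₀, h2, h3, by omega, h4, ?_⟩
  rintro ⟨k, hk⟩
  have hl : 3 ≤ l₁ := by omega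
  have hk1 : k = 1 := by
    rcases Nat.lt_or_ge k 2 with h | h
    · rcases Nat.eq_zero_or_pos k with h0 | h0
      · rw [h0, mul_zero] at hk
        omega
      · omega
    · have : l₁ * 2 ≤ l₁ * k := Nat.mul_le_mul_left _ h
      omega
  rw [hk1, mul_one] at hk
  have h6 : l₀ = l₁ + 1 := by omega
  have o1 : Odd l₁ := h2.odd_of_ne_two (by omega)
  have o2 : Odd l₀ := h3.odd_of_ne_two (by omega)
  rw [h6] at o2
  rcases o1 with ⟨a, ha⟩
  rcases o2 with ⟨b, hb⟩
  omega

/-- there is a prime `r` modulo which the order of `p ^ e` is prime to `p` and divisible by `d` -/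
theorem exists_r {p d e : ℕ} [hp : Fact p.Prime] (hd : ¬ p ∣ d) (he : 0 < e) :
    ∃ r n : ℕ, r.Prime ∧ r ≠ p ∧ 1 < n ∧ d ∣ n ∧ ¬ p ∣ n ∧ orderOf ((p ^ e : ℕ) : ZMod r) = n := by
  have hd0 : 0 < d := Nat.pos_of_ne_zero fun h => hd (h ▸ dvd_zero p)
  obtain ⟨l₁, l₀, hl1, hl0, hN, hlt, hnd⟩ := exists_l (max p d)
  have hpl : p < l₁ := lt_of_le_of_lt (le_max_left _ _) hN
  have hdl : d < l₁ := lt_of_le_of_lt (le_max_right _ _) hN
  set n := d * l₁ * l₀ with hn
  have hn1 : 1 < n := by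
    have h1 : 1 ≤ d * l₁ := Nat.mul_pos hd0 hl1.pos
    calc 1 < l₀ := hl0.one_lt
      _ = 1 * l₀ := (one_mul _).symm
      _ ≤ d * l₁ * l₀ := Nat.mul_le_mul_right _ h1
  set q := p ^ e with hq
  have hq2 : 2 ≤ q := by
    calc 2 ≤ p := hp.out.two_le
      _ = p ^ 1 := (pow_one p).symm
      _ ≤ p ^ e := Nat.pow_le_pow_right hp.out.pos he
  have hpn : ¬ p ∣ n := by
    intro h
    rcases (Nat.Prime.dvd_mul hp.out).mp h with h | h
    · rcases (Nat.Prime.dvd_mul hp.out).mp h with h | h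
      · exact hd h
      · have := (Nat.prime_dvd_prime_iff_eq hp.out hl1).mp h
        omega
    · have := (Nat.prime_dvd_prime_iff_eq hp.out hl0).mp h
      omega
  have h1 := Polynomial.sub_one_lt_natAbs_cyclotomic_eval (n := n) (q := q) hn1 (by omega)
  have h2 : ((Polynomial.cyclotomic n ℤ).eval (q : ℤ)).natAbs ≠ 1 := by omega
  obtain ⟨r, hr, hrd⟩ := Nat.exists_prime_and_dvd h2
  have : Fact r.Prime := ⟨hr⟩
  have hroot : (Polynomial.cyclotomic n (ZMod r)).IsRoot (q : ZMod r) := by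
    have h3 : (r : ℤ) ∣ (Polynomial.cyclotomic n ℤ).eval (q : ℤ) := Int.natCast_dvd.mpr hrd
    have h4 := (ZMod.intCast_zmod_eq_zero_iff_dvd _ r).mpr h3
    rw [Polynomial.IsRoot.def, ← Polynomial.map_cyclotomic n (Int.castRingHom (ZMod r)),
      Polynomial.eval_map]
    have h5 : (q : ZMod r) = Int.castRingHom (ZMod r) (q : ℤ) := by simp
    rw [h5, Polynomial.eval₂_at_apply]
    exact h4
  have hrp : r ≠ p := by
    rintro rfl
    have h3 : (q : ZMod r) = 0 := by
      rw [hq, Nat.cast_pow, ZMod.natCast_self, zero_pow he.ne']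
    rw [h3, Polynomial.IsRoot.def, ← Polynomial.coeff_zero_eq_eval_zero,
      Polynomial.cyclotomic_coeff_zero _ hn1] at hroot
    exact one_ne_zero hroot
  refine ⟨r, n, hr, hrp, hn1, ⟨l₁ * l₀, by rw [hn, mul_assoc]⟩, hpn, ?_⟩
  obtain ⟨k, m, hm, hnm⟩ :=
    Nat.exists_eq_pow_mul_and_not_dvd (show n ≠ 0 by omega) r hr.ne_one
  have : NeZero (m : ZMod r) := ⟨fun h => hm ((ZMod.natCast_eq_zero_iff m r).mp h)⟩
  have hroot' := hroot
  rw [hnm, Polynomial.isRoot_cyclotomic_prime_pow_mul_iff_of_charP] at hroot'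
  have hord : orderOf (q : ZMod r) = m := hroot'.eq_orderOf.symm
  have hm1 : m ∣ r - 1 := by
    have hq0 : (q : ZMod r) ≠ 0 := by
      intro h3
      have h4 := hroot'.pow_eq_one
      have hm0 : m ≠ 0 := by
        rintro rfl
        exact hm (dvd_zero r)
      rw [h3, zero_pow hm0] at h4
      exact zero_ne_one h4
    rw [← hord]
    exact orderOf_dvd_of_pow_eq_one (ZMod.pow_card_sub_one_eq_one hq0)
  have hr1 : 0 < r - 1 := Nat.sub_pos_of_lt hr.one_lt
  have hk : k = 0 := by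
    by_contra hk
    have hrn : r ∣ n := by
      rw [hnm]
      exact (dvd_pow_self r hk).mul_right m
    by_cases h0 : r = l₀
    · -- `r = l₀`
      have h3 : l₁ ∣ r ^ k * m := by
        rw [← hnm]
        exact ⟨d * l₀, by rw [hn]; ring⟩
      have h4 : l₁ ∣ m := by
        rcases (Nat.Prime.dvd_mul hl1).mp h3 with h | h
        · have h5 := (Nat.prime_dvd_prime_iff_eq hl1 hr).mp (hl1.dvd_of_dvd_pow h)
          omega
        · exact h
      apply hnd
      rw [← h0]
      exact h4.trans hm1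
    · have h3 : l₀ ∣ r ^ k * m := by
        rw [← hnm]
        exact ⟨d * l₁, by rw [hn]; ring⟩
      have h4 : l₀ ∣ m := by
        rcases (Nat.Prime.dvd_mul hl0).mp h3 with h | h
        · have h5 := (Nat.prime_dvd_prime_iff_eq hl0 hr).mp (hl0.dvd_of_dvd_pow h)
          exact absurd h5.symm h0
        · exact h
      have h5 : l₀ ≤ r - 1 := Nat.le_of_dvd hr1 (h4.trans hm1)
      have h6 : r ≤ l₁ := by
        rcases (Nat.Prime.dvd_mul hr).mp hrn with h | h
        · rcases (Nat.Prime.dvd_mul hr).mp h with h | h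
          · have := Nat.le_of_dvd hd0 h
            omega
          · exact Nat.le_of_dvd hl1.pos h
        · exact absurd ((Nat.prime_dvd_prime_iff_eq hr hl0).mp h) h0
      omega
  rw [hord, hnm, hk, pow_zero, one_mul]

/-- the homomorphism from the cyclic group of order `n` -/
def hz {n : ℕ} [NeZero n] {H : Type} [Group H] (h : H) (hh : h ^ n = 1) :
    Multiplicative (ZMod n) →* H where
  toFun x := h ^ (Multiplicative.toAdd x).val
  map_one' := by
    rw [toAdd_one, ZMod.val_zero, pow_zero]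
  map_mul' x y := by
    rw [toAdd_mul, ZMod.val_add, ← pow_eq_pow_mod _ hh, pow_add]

theorem hz_gen {n : ℕ} [NeZero n] (hn : 1 < n) {H : Type} [Group H] (h : H) (hh : h ^ n = 1) :
    hz h hh (Multiplicative.ofAdd 1) = h := by
  have : Fact (1 < n) := ⟨hn⟩
  change h ^ (1 : ZMod n).val = h
  rw [ZMod.val_one, pow_one]

theorem hz_inj {n : ℕ} [NeZero n] {H : Type} [Group H] (h : H) (hh : h ^ n = 1)
    (ho : orderOf h = n) : Function.Injective (hz h hh) := by
  intro x y hxy
  have h1 : h ^ (Multiplicative.toAdd x).val = h ^ (Multiplicative.toAdd y).val := hxy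
  have h2 := pow_injOn_Iio_orderOf (x := h) (by
    rw [Set.mem_Iio, ho]
    exact ZMod.val_lt _) (by
    rw [Set.mem_Iio, ho]
    exact ZMod.val_lt _) h1
  exact Multiplicative.toAdd.injective (ZMod.val_injective n h2)

end Pool.Agent.V8H56.MA
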