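import Pool.Agent.V8H56.MA.Fin

/-!
# Bijections compatible with an automorphism and with Galois automorphisms: the theorem
-/

set_option autoImplicit false
set_option linter.unusedSectionVars false

open scoped BigOperators Classical

noncomputable section

namespace Pool.Agent.V8H56.MA

open Pool.Agent.Q90.WR Pool.Agent.H254R3.IN Pool.Agent.Q259.BW Pool.Agent.Q288.MB
open Pool.Agent.Helper884 Pool.Agent.N19.RB Pool.Agent.N84.MG Pool.Agent.V8H56.EQ
open Pool.Agent.V8H56.BF (resA coe_resA inv_iff)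

variable {G : Type} [Group G] [Finite G] {p : ℕ} [hp : Fact p.Prime]

/-- the inertia group -/
def Ig (p : ℕ) (G : Type) : Subgroup (ℂ ≃+* ℂ) where
  carrier := IG p G
  mul_mem' := by
    intro a b ha hb ξ hξ
    change a (b ξ) = ξ
    rw [hb ξ hξ, ha ξ hξ]
  one_mem' := fun _ _ => rfl
  inv_mem' := by
    intro a ha ξ hξ
    change a.symm ξ = ξ
    rw [RingEquiv.symm_apply_eq, ha ξ hξ]

theorem tw (hX : ∀ (Y : Subgroup G) [Y.Normal], Y ≤ Subgroup.center G →
      ∀ (H : Type) [Group H] [Finite H] (T : Sylow p H), Ext p (G ⧸ Y) H →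
        EquivBij (HG p H) (XP p H) (XP p (NS T))) (S : Sylow p G) {σ : ℂ ≃+* ℂ}
    (hσ : σ ∈ HG p G) {f : MulAut G} (hf : ¬ p ∣ orderOf f)
    (hS : ∀ s ∈ (S : Subgroup G), f s ∈ (S : Subgroup G)) : TwBij S σ f := by
  have := Fintype.ofFinite G
  have i1 : Finite (XP p G) := finite_of_irr fun θ hθ => hθ.1
  have i2 : Finite (XP p (NS S)) := finite_of_irr fun θ hθ => hθ.1
  have i3 : Finite (XP p (Subgroup.center G)) := finite_of_irr fun θ hθ => hθ.1
  obtain ⟨Γ, hΓ⟩ := hg_sub (p := p) G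
  obtain ⟨fN, hfN⟩ : ∃ fN : MulAut (NS S), ∀ n : NS S, ((fN n : NS S) : G) = f n :=
    ⟨resA (Subgroup.zpowers f).subtype (inv_z hS) ⟨f, Subgroup.mem_zpowers f⟩,
      fun n => coe_resA _ _ _ n⟩
  obtain ⟨fZ, hfZ⟩ : ∃ fZ : MulAut (Subgroup.center G),
      ∀ z, ((fZ z : Subgroup.center G) : G) = f z :=
    ⟨MulEquiv.ofBijective (fC f) (Finite.injective_iff_bijective.mp (by
      intro x y hxy
      exact Subtype.ext (f.injective (congrArg Subtype.val hxy)))), fun z => rfl⟩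
  have ho : f ^ orderOf f = 1 := pow_orderOf_eq_one f
  have ho' : 0 < orderOf f := Nat.pos_of_ne_zero fun h => hf (h ▸ dvd_zero p)
  have hfNk : ∀ (k : ℕ) (n : NS S), (((fN ^ k) n : NS S) : G) = (f ^ k) n := by
    intro k
    induction k with
    | zero => exact fun n => rfl
    | succ k ih =>
      intro n
      rw [pow_succ, pow_succ, MulAut.mul_apply, MulAut.mul_apply, ih, hfN]
  have hoN : fN ^ orderOf f = 1 := by
    ext n
    rw [hfNk, ho]
    rfl
  let A : Ig p G →* Equiv.Perm (XP p G) × Equiv.Perm (XP p (NS S)) ×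
      Equiv.Perm (XP p (Subgroup.center G)) :=
    ((gp p G).prod ((gp p (NS S)).prod (gp p (Subgroup.center G)))).comp (Ig p G).subtype
  let g : Equiv.Perm (XP p G) × Equiv.Perm (XP p (NS S)) ×
      Equiv.Perm (XP p (Subgroup.center G)) := (tp σ f, tp σ fN, tp σ fZ)
  let c : XP p G → XP p (Subgroup.center G) := fun θ =>
    ⟨_, lin_XP (vh (Subgroup.center G).subtype (fun z => z.2) θ.2.1)⟩
  let c' : XP p (NS S) → XP p (Subgroup.center G) := fun θ =>
    ⟨_, lin_XP (vh (jC' (S : Subgroup G)) (jC'_cent (S : Subgroup G)) θ.2.1)⟩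
  obtain ⟨F, h1, h2, h3⟩ := iso_two A g
    (fun i j => Prod.ext (gp_comm _ _) (Prod.ext (gp_comm _ _) (gp_comm _ _)))
    (fun i => Prod.ext (gp_ga _ _ _) (Prod.ext (gp_ga _ _ _) (gp_ga _ _ _))) c c'
    (by
      intro i x
      refine Subtype.ext (funext fun z => ?_)
      change i.1 (x.1 z) / i.1 (x.1 1) = i.1 (x.1 z / x.1 1)
      rw [map_div₀])
    (by
      intro i x
      refine Subtype.ext (funext fun z => ?_)
      change i.1 (x.1 (jC' (S : Subgroup G) z)) / i.1 (x.1 1) =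
        i.1 (x.1 (jC' (S : Subgroup G) z) / x.1 1)
      rw [map_div₀])
    (by
      intro x
      refine Subtype.ext (funext fun z => ?_)
      change σ (x.1 (f z)) / σ (x.1 (f 1)) = σ (x.1 ((fZ z : Subgroup.center G) : G) / x.1 1)
      rw [map_div₀, hfZ, map_one])
    (by
      intro x
      refine Subtype.ext (funext fun z => ?_)
      change σ (x.1 (fN (jC' (S : Subgroup G) z))) / σ (x.1 (fN 1)) =
        σ (x.1 (jC' (S : Subgroup G) (fZ z)) / x.1 1)
      have h4 : fN (jC' (S : Subgroup G) z) = jC' (S : Subgroup G) (fZ z) :=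
        Subtype.ext ((hfN _).trans (hfZ z).symm)
      rw [map_div₀, h4, map_one])
    (by
      intro L i k l
      have hσ' : i.1 * σ ^ k ∈ HG p G := by
        rw [← hΓ] at hσ ⊢
        refine Γ.mul_mem ?_ (Γ.pow_mem hσ k)
        change i.1 ∈ (Γ : Set (ℂ ≃+* ℂ))
        rw [hΓ]
        exact ⟨0, fun ξ hξ => by rw [i.2 ξ hξ, pow_zero, pow_one]⟩
      have hgood := good hX S (σ := i.1 * σ ^ k) hσ' (L := Subtype.val '' L)
        (by
          rintro _ ⟨j, -, rfl⟩
          exact j.2) (f := f ^ (k * (orderOf f - 1)))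
        (fun hd => hf (hd.trans (orderOf_pow_dvd _))) (pow_mem_of hS _)
      have e := cnt_Z' S (pow_mem_of hS _) hgood l.1
      have key : ∀ x : XP p G, ((∀ j ∈ L, (A j).1 x = x) ∧ (A i).1 ((g.1 ^ k) x) = x) ↔
          RG (Subtype.val '' L) (i.1 * σ ^ k) (f ^ (k * (orderOf f - 1))) x.1 := by
        intro x
        refine and_congr ?_ ((fix_iff i.1 σ f k ho ho' x).trans funext_iff.symm)
        constructor
        · rintro h _ ⟨j, hj, rfl⟩ y
          exact congrFun (congrArg Subtype.val (h j hj)) y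
        · intro h j hj
          exact Subtype.ext (funext fun y => h j.1 ⟨j, hj, rfl⟩ y)
      have keyN : ∀ x : XP p (NS S), ((∀ j ∈ L, (A j).2.1 x = x) ∧
          (A i).2.1 ((g.2.1 ^ k) x) = x) ↔
          RN (S : Subgroup G) (Subtype.val '' L) (i.1 * σ ^ k)
            (f ^ (k * (orderOf f - 1))) x.1 := by
        intro x
        refine and_congr ?_ ((fix_iff i.1 σ fN k hoN ho' x).trans ?_)
        · constructor
          · rintro h _ ⟨j, hj, rfl⟩ y
            exact congrFun (congrArg Subtype.val (h j hj)) y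
          · intro h j hj
            exact Subtype.ext (funext fun y => h j.1 ⟨j, hj, rfl⟩ y)
        · constructor
          · intro h n n' hn
            have h4 : n' = (fN ^ (k * (orderOf f - 1))) n :=
              Subtype.ext (hn.trans (hfNk _ n).symm)
            rw [h4]
            exact h n
          · intro h n
            exact h n _ (hfNk _ n)
      refine (Nat.card_congr ?_).trans (e.trans (Nat.card_congr ?_))
      · exact
          { toFun := fun x => ⟨⟨x.1.1, x.1.2, (key x.1).mp x.2.1⟩, congrArg Subtype.val x.2.2⟩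
            invFun := fun a => ⟨⟨a.1.1, a.1.2.1⟩, (key ⟨a.1.1, a.1.2.1⟩).mpr a.1.2.2,
              Subtype.ext a.2⟩
            left_inv := fun _ => rfl
            right_inv := fun _ => rfl }
      · exact
          { toFun := fun a => ⟨⟨a.1.1, a.1.2.1⟩, (keyN ⟨a.1.1, a.1.2.1⟩).mpr a.1.2.2,
              Subtype.ext a.2⟩
            invFun := fun x => ⟨⟨x.1.1, x.1.2, (keyN x.1).mp x.2.1⟩, congrArg Subtype.val x.2.2⟩
            left_inv := fun _ => rfl
            right_inv := fun _ => rfl })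
  refine ⟨F, ?_, ?_, ?_⟩
  · intro τ hτ θ θ' h n
    have h4 : θ' = gp p G τ θ := Subtype.ext (funext h)
    have h5 := h1 ⟨τ, hτ⟩ θ
    change F (gp p G τ θ) = gp p (NS S) τ (F θ) at h5
    rw [h4, h5]
    rfl
  · intro θ θ' h n n' hn
    have h4 : θ' = tp σ f θ := Subtype.ext (funext h)
    have h5 := h2 θ
    change F (tp σ f θ) = tp σ fN (F θ) at h5
    have h6 : n' = fN n := Subtype.ext (hn.trans (hfN n).symm)
    rw [h4, h5, h6]
    rfl
  · intro θ z hz
    have h4 := congrFun (congrArg Subtype.val (h3 θ)) ⟨z, hz⟩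
    exact h4

/-- characters are class functions -/
theorem irr_conj {H : Type} [Group H] {χ : H → ℂ} (hχ : IsIrr χ) (y x : H) :
    χ (y * x * y⁻¹) = χ x := hχ.conj x y

/-- automorphisms with an inner power of order prime to `p` -/
theorem tw_inn (hX : ∀ (Y : Subgroup G) [Y.Normal], Y ≤ Subgroup.center G →
      ∀ (H : Type) [Group H] [Finite H] (T : Sylow p H), Ext p (G ⧸ Y) H →
        EquivBij (HG p H) (XP p H) (XP p (NS T))) (S : Sylow p G) {σ : ℂ ≃+* ℂ}
    (hσ : σ ∈ HG p G) {f : MulAut G}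
    (hf : ∃ (k : ℕ) (x : G), ¬ p ∣ k ∧ f ^ k = MulAut.conj x)
    (hS : ∀ s ∈ (S : Subgroup G), f s ∈ (S : Subgroup G)) : TwBij S σ f := by
  obtain ⟨k, x, hk, hx⟩ := hf
  have : Finite (MulAut G) := inferInstance
  obtain ⟨a, m, hm, hc⟩ :=
    Nat.exists_eq_pow_mul_and_not_dvd (orderOf_pos f).ne' p hp.out.ne_one
  have hcop : (p ^ a).Coprime m :=
    Nat.Coprime.pow_left _ ((Nat.Prime.coprime_iff_not_dvd hp.out).mpr hm)
  obtain ⟨u, u1, u2⟩ := Nat.chineseRemainder hcop 1 0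
  obtain ⟨w, w1, w2⟩ := Nat.chineseRemainder hcop 0 1
  have huw : f ^ (u + w) = f := by
    have h1 : u + w ≡ 1 [MOD p ^ a * m] := by
      rw [← Nat.modEq_and_modEq_iff_modEq_mul hcop]
      exact ⟨u1.add w1, u2.add w2⟩
    rw [← hc] at h1
    have h2 := (pow_eq_pow_iff_modEq (x := f)).mpr h1
    rw [h2, pow_one]
  -- the `p`-part is inner
  have hkp : (p ^ a).Coprime k :=
    Nat.Coprime.pow_left _ ((Nat.Prime.coprime_iff_not_dvd hp.out).mpr hk)
  obtain ⟨v, v1, v2⟩ := Nat.chineseRemainder hkp 1 0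
  obtain ⟨t, ht⟩ := (Nat.modEq_zero_iff_dvd).mp v2
  have hfu : f ^ u = f ^ (k * (t * u)) := by
    rw [pow_eq_pow_iff_modEq, hc, ← Nat.modEq_and_modEq_iff_modEq_mul hcop]
    constructor
    · have h1 : 1 * u ≡ v * u [MOD p ^ a] := (v1.mul_right u).symm
      rw [one_mul, ht] at h1
      rw [← mul_assoc]
      exact h1
    · have h1 : k * (t * u) ≡ k * (t * 0) [MOD m] := (u2.mul_left t).mul_left k
      rw [mul_zero, mul_zero] at h1
      exact u2.trans h1.symm
  obtain ⟨y, hy⟩ : ∃ y : G, y = x ^ (t * u) := ⟨_, rfl⟩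
  have hfy : f ^ u = MulAut.conj y := by
    rw [hfu, pow_mul, hx, hy, map_pow]
  have hfw : ∀ g, f g = y * (f ^ w) g * y⁻¹ := by
    intro g
    conv_lhs => rw [← huw]
    rw [pow_add, MulAut.mul_apply, hfy, MulAut.conj_apply]
  have hyN : y ∈ Subgroup.normalizer ((S : Subgroup G) : Set G) := by
    rw [Subgroup.mem_normalizer_iff]
    have h1 : ∀ s ∈ (S : Subgroup G), y * s * y⁻¹ ∈ (S : Subgroup G) := by
      intro s hs
      have h2 := pow_mem_of hS u s hs
      rw [hfy, MulAut.conj_apply] at h2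
      exact h2
    intro h
    refine ⟨h1 h, fun hh => ?_⟩
    have h2 : (S : Subgroup G).map (MulAut.conj y : G →* G) = S := by
      apply Subgroup.eq_of_le_of_card_ge
      · rintro _ ⟨s, hs, rfl⟩
        exact h1 s hs
      · rw [Nat.card_congr ((S : Subgroup G).equivMapOfInjective (MulAut.conj y : G →* G)
          (MulAut.conj y).injective).toEquiv]
    rw [← h2] at hh
    obtain ⟨s, hs, hs'⟩ := hh
    have h3 : s = h := (MulAut.conj y).injective hs'
    rw [← h3]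
    exact hs
  have hfm : ¬ p ∣ orderOf (f ^ w) := by
    intro hd
    apply hm
    obtain ⟨w', hw'⟩ := (Nat.modEq_zero_iff_dvd).mp w1
    refine hd.trans (orderOf_dvd_of_pow_eq_one ?_)
    rw [← pow_mul, hw']
    have h1 : p ^ a * w' * m = orderOf f * w' := by rw [hc]; ring
    rw [h1, pow_mul, pow_orderOf_eq_one, one_pow]
  obtain ⟨F, h1, h2, h3⟩ := tw hX S hσ hfm (pow_mem_of hS w)
  refine ⟨F, h1, ?_, h3⟩
  intro θ θ' h n n' hn
  have h4 : ∀ g, θ'.1 g = σ (θ.1 ((f ^ w) g)) := by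
    intro g
    rw [h, hfw, irr_conj θ.2.1]
  have hyn : ((⟨y, hyN⟩ : NS S)⁻¹ * n' * (⟨y, hyN⟩ : NS S)⁻¹⁻¹ : NS S) =
      (⟨y⁻¹ * (n' : G) * y, by
        have := ((⟨y, hyN⟩ : NS S)⁻¹ * n' * (⟨y, hyN⟩ : NS S)⁻¹⁻¹ : NS S).2
        simpa using this⟩ : NS S) := by
    apply Subtype.ext
    simp
  have h5 := h2 θ θ' h4 n ((⟨y, hyN⟩ : NS S)⁻¹ * n' * (⟨y, hyN⟩ : NS S)⁻¹⁻¹) (by
    rw [hyn]
    change y⁻¹ * (n' : G) * y = (f ^ w) n
    rw [hn, hfw]
    group)
  rw [h5, irr_conj (F θ).2.1]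

/-- the converse -/
theorem of_tw (S : Sylow p G) (h : ∀ σ ∈ HG p G, TwBij S σ 1) :
    EquivBij (HG p G) (XP p G) (XP p (NS S)) := by
  set m := Nat.card G / p ^ (Nat.card G).factorization p with hm
  have hpm : ¬ p ∣ m := Nat.not_dvd_ordCompl hp.out Nat.card_pos.ne'
  have hm0 : m ≠ 0 := fun h => hpm (h ▸ dvd_zero p)
  have hcm : p.Coprime m := (Nat.Prime.coprime_iff_not_dvd hp.out).mpr hpm
  obtain ⟨σ, hσ⟩ := Pool.Agent.R677.FV.exists_sigma m hm0 p hcm
  obtain ⟨F, h1, h2, -⟩ := h σ ⟨1, fun ξ hξ => by rw [hσ ξ hξ, pow_one]⟩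
  have hpow : ∀ (e : ℕ) (ξ : ℂ), ξ ^ m = 1 → (σ ^ e) ξ = ξ ^ p ^ e := by
    intro e
    induction e with
    | zero =>
      intro ξ hξ
      rw [pow_zero, pow_zero, pow_one]
      rfl
    | succ e ih =>
      intro ξ hξ
      rw [pow_succ' σ]
      change σ ((σ ^ e) ξ) = _
      rw [ih ξ hξ, map_pow, hσ ξ hξ, ← pow_mul, ← pow_succ']
  have c1 : ∀ θ, F (gp p G σ θ) = gp p (NS S) σ (F θ) := by
    intro θ
    refine Subtype.ext (funext fun n => ?_)
    exact h2 θ (gp p G σ θ) (fun g => rfl) n n rfl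
  have c2 : ∀ (e : ℕ) θ, F (gp p G (σ ^ e) θ) = gp p (NS S) (σ ^ e) (F θ) := by
    intro e
    induction e with
    | zero => exact fun θ => rfl
    | succ e ih =>
      intro θ
      rw [pow_succ, map_mul, map_mul, Equiv.Perm.mul_apply, Equiv.Perm.mul_apply, ih, c1]
  have c3 : ∀ τ ∈ IG p G, ∀ θ, F (gp p G τ θ) = gp p (NS S) τ (F θ) := by
    intro τ hτ θ
    refine Subtype.ext (funext fun n => ?_)
    exact h1 τ hτ θ (gp p G τ θ) (fun g => rfl) n
  refine ⟨F, fun τ hτ χ => ⟨XP_gal τ χ.2, ?_⟩⟩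
  obtain ⟨e, he⟩ := hτ
  have hτ₀ : (σ ^ e)⁻¹ * τ ∈ IG p G := by
    intro ξ hξ
    change (σ ^ e).symm (τ ξ) = ξ
    rw [he ξ hξ, ← hpow e ξ hξ, RingEquiv.symm_apply_apply]
  obtain ⟨ρ, hρ⟩ : ∃ ρ, ρ = (σ ^ e)⁻¹ * τ := ⟨_, rfl⟩
  have h3 : τ = σ ^ e * ρ := by rw [hρ, mul_inv_cancel_left]
  rw [← hρ] at hτ₀
  have h4 : F (gp p G τ χ) = gp p (NS S) τ (F χ) := by
    rw [h3, map_mul, map_mul, Equiv.Perm.mul_apply, Equiv.Perm.mul_apply, c2, c3 _ hτ₀]
  exact congrArg Subtype.val h4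

end Pool.Agent.V8H56.MA
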