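import Pool.Agent.N84.MG.Main
import Pool.Agent.V8H56.EQ.Act

/-!
# The irreducible characters of `(C_M × G^ι) ⋊ P` above faithful characters of `C_M`, where `P` is a
group of automorphisms of `G`
-/

set_option autoImplicit false
set_option linter.unusedSectionVars false

open scoped BigOperators Classical

noncomputable section

namespace Pool.Agent.V8H56.MA

open Pool.Agent.Q90.WR Pool.Agent.H254R3.IN Pool.Agent.Q259.BW Pool.Agent.Q288.MB
open Pool.Agent.Helper884 Pool.Agent.N19.RB Pool.Agent.N84.MG Pool.Agent.V8H56.EQ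
open Pool.Agent.V8H56.BF (resA coe_resA inv_iff)

open SemidirectProduct (inl)

section abv

variable {M : ℕ} [NeZero M] {P ι G : Type} [Group P] [Group G] [Fintype P]
  [Fintype ι] [Fintype G] {p : ℕ} [hp : Fact p.Prime] {c : P →* (ZMod M)ˣ} {φ : P →* MulAut G}

/-- the induced character -/
def ind (c : P →* (ZMod M)ˣ) (φ : P →* MulAut G) (u : ZMod M) (τ : ι → G → ℂ) :
    NO ι (CD M) G ⋊[actG ι ((aU M).comp c) φ] P → ℂ :=
  indP (actG ι ((aU M).comp c) φ) (tens (fo (nu u) τ))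

/-- `χ` lies above the character `nu u` of `C_M` -/
def Abv (u : ZMod M) (χ : NO ι (CD M) G ⋊[actG ι ((aU M).comp c) φ] P → ℂ) : Prop :=
  ∃ τ : ι → G → ℂ, (∀ i, IsIrr (τ i)) ∧ IC.B (ind c φ u τ) χ ≠ 0

theorem exists_abv {χ : NO ι (CD M) G ⋊[actG ι ((aU M).comp c) φ] P → ℂ} (hχ : IsIrr χ) :
    ∃ u, Abv u χ := by
  obtain ⟨θ, h1, h2⟩ := exists_below hχ
  obtain ⟨u, τ, h3, rfl⟩ := exists_fo h1
  exact ⟨u, τ, h3, h2⟩

theorem act_fo (t : P) (u : ZMod M) (τ : ι → G → ℂ) :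
    (fun n => tens (fo (nu u) τ) (actG ι ((aU M).comp c) φ t n)) =
      tens (fo (nu ((c t : ZMod M) * u)) fun i g => τ i (φ t g)) := by
  funext n
  rw [tens_actG]
  have h : (fun a => nu u (((aU M).comp c) t a)) = nu ((c t : ZMod M) * u) := nu_al u (c t)
  rw [h]

theorem ind_act (t : P) (u : ZMod M) (τ : ι → G → ℂ) :
    ind c φ ((c t : ZMod M) * u) (fun i g => τ i (φ t g)) = ind c φ u τ := by
  unfold ind
  rw [← act_fo, indP_aut]

theorem irr_phi {τ : ι → G → ℂ} (h : ∀ i, IsIrr (τ i)) (t : P) :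
    ∀ i, IsIrr (fun g => τ i (φ t g)) := fun i => irr_aut (φ := φ) (h i) t

theorem abv_orbit {χ : NO ι (CD M) G ⋊[actG ι ((aU M).comp c) φ] P → ℂ} (hχ : IsIrr χ)
    {u u' : ZMod M} (h : Abv u χ) (h' : Abv u' χ) : ∃ t : P, u' = (c t : ZMod M) * u := by
  obtain ⟨τ, h1, h2⟩ := h
  obtain ⟨τ', h3, h4⟩ := h'
  obtain ⟨t, ht⟩ := cliff (tens_fo_irr (nu_irr u) h1) (tens_fo_irr (nu_irr u') h3) hχ h2 h4
  rw [act_fo] at ht
  exact ⟨t, nu_inj (fo_inj (nu_irr _) h3 (nu_irr _) (irr_phi h1 t) ht).1⟩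

theorem abv_smul {χ : NO ι (CD M) G ⋊[actG ι ((aU M).comp c) φ] P → ℂ} {u : ZMod M}
    (h : Abv u χ) (t : P) : Abv ((c t : ZMod M) * u) χ := by
  obtain ⟨τ, h1, h2⟩ := h
  exact ⟨fun i g => τ i (φ t g), irr_phi h1 t, by rwa [ind_act]⟩

theorem dis_u (hc : Function.Injective c) (u : (ZMod M)ˣ) :
    Dis (actG ι ((aU M).comp c) φ) (AI ι G (u : ZMod M)) := by
  intro θ hθ t ht
  obtain ⟨μ, hμ, τ, hτ, rfl⟩ := mem_AO'.mp hθ
  rw [Set.mem_singleton_iff] at hμ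
  subst hμ
  rw [act_fo] at ht
  replace ht := (mem_AO (B := fun _ : ι => {θ : G → ℂ | IsIrr θ}) nu_sing (fun _ _ h => h)
    (nu_irr _) (irr_phi hτ t)).mp ht
  have h1 := nu_inj (Set.mem_singleton_iff.mp ht.1)
  apply hc
  rw [map_one]
  have h3 : ((c t * u : (ZMod M)ˣ) : ZMod M) = ((1 * u : (ZMod M)ˣ) : ZMod M) := by
    push_cast
    rw [one_mul]
    exact h1
  exact mul_right_cancel (Units.ext h3)

theorem ind_irr (hc : Function.Injective c) (u : (ZMod M)ˣ) {τ : ι → G → ℂ}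
    (hτ : ∀ i, IsIrr (τ i)) : IsIrr (ind c φ (u : ZMod M) τ) :=
  indP_irr (AI_irr _) (dis_u hc u) (mem_AI hτ)

theorem ind_inj (hc : Function.Injective c) (u : (ZMod M)ˣ) {τ τ' : ι → G → ℂ}
    (hτ : ∀ i, IsIrr (τ i)) (hτ' : ∀ i, IsIrr (τ' i))
    (h : ind c φ (u : ZMod M) τ = ind c φ (u : ZMod M) τ') : τ = τ' :=
  (fo_inj (nu_irr _) hτ (nu_irr _) hτ'
    (indP_inj (AI_irr _) (dis_u hc u) (mem_AI hτ) (mem_AI hτ') h)).2

theorem abv_iff (hc : Function.Injective c) (u : (ZMod M)ˣ)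
    {χ : NO ι (CD M) G ⋊[actG ι ((aU M).comp c) φ] P → ℂ} (hχ : IsIrr χ) :
    Abv (u : ZMod M) χ ↔ ∃ τ : ι → G → ℂ, (∀ i, IsIrr (τ i)) ∧ χ = ind c φ (u : ZMod M) τ := by
  refine exists_congr fun τ => and_congr_right fun hτ => ?_
  rw [IC.B_irr (ind_irr hc u hτ) hχ]
  constructor
  · intro h
    by_contra hne
    exact h (if_neg fun h' => hne h'.symm)
  · intro h
    rw [if_pos h.symm]
    exact one_ne_zero

theorem ind_one (u : ZMod M) (τ : ι → G → ℂ) :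
    ind c φ u τ 1 = Nat.card P * ∏ i, τ i 1 := by
  unfold ind
  rw [indP_one, tens_fo]
  congr 1
  have h : nu u (cO (1 : NO ι (CD M) G)) = 1 := nu_one u
  rw [h, one_mul]
  rfl

theorem ind_deg (hP : ¬ p ∣ Nat.card P) (u : ZMod M) {τ : ι → G → ℂ} (hτ : ∀ i, IsIrr (τ i)) :
    PrimeDeg p (ind c φ u τ) ↔ ∀ i, PrimeDeg p (τ i) := by
  choose d _ hd using fun i => (hτ i).deg
  have h1 : ind c φ u τ 1 = ((Nat.card P * ∏ i, d i : ℕ) : ℂ) := by
    rw [ind_one]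
    push_cast
    rw [Finset.prod_congr rfl fun i _ => hd i]
  constructor
  · rintro ⟨n, hn, hpn⟩ i
    have h2 : n = Nat.card P * ∏ i, d i := by exact_mod_cast hn.trans h1
    refine ⟨d i, hd i, fun h => hpn ?_⟩
    rw [h2]
    exact (h.trans (Finset.dvd_prod_of_mem d (Finset.mem_univ i))).mul_left _
  · intro h
    refine ⟨_, h1.symm, fun h2 => ?_⟩
    rcases (Nat.Prime.dvd_mul hp.out).mp h2 with h2 | h2
    · exact hP h2
    · refine not_dvd_prod ?_ h2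
      intro i
      obtain ⟨n, hn, hpn⟩ := h i
      have h3 : n = d i := by exact_mod_cast hn.trans (hd i).symm
      rwa [← h3]

theorem gal_ind (σ : ℂ ≃+* ℂ) (u : ZMod M) (τ : ι → G → ℂ)
    (x : NO ι (CD M) G ⋊[actG ι ((aU M).comp c) φ] P) :
    σ (ind c φ u τ x) = ind c φ ((ex M σ : ZMod M) * u) (fun i g => σ (τ i g)) x := by
  unfold ind
  rw [gal_indP]
  congr 1
  funext n
  rw [tens_fo, tens_fo, map_mul, gal_nu, map_prod]

theorem ind_fix (hc : Function.Injective c) (u : (ZMod M)ˣ) {τ : ι → G → ℂ}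
    (hτ : ∀ i, IsIrr (τ i)) {σ : ℂ ≃+* ℂ} {t : P} (ht : c t = ex M σ) :
    FixedBy σ (ind c φ (u : ZMod M) τ) ↔ ∀ i, (fun g => σ (τ i g)) = fun g => τ i (φ t g) := by
  have e1 : (fun x => σ (ind c φ (u : ZMod M) τ x)) =
      ind c φ ((c t * u : (ZMod M)ˣ) : ZMod M) (fun i g => σ (τ i g)) := by
    funext x
    rw [gal_ind, ← ht, Units.val_mul]
  have e2 : ind c φ (u : ZMod M) τ =
      ind c φ ((c t * u : (ZMod M)ˣ) : ZMod M) (fun i g => τ i (φ t g)) := by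
    rw [Units.val_mul, ind_act]
  constructor
  · intro hf
    have h1 : (fun x => σ (ind c φ (u : ZMod M) τ x)) = ind c φ (u : ZMod M) τ := funext hf
    rw [e1, e2] at h1
    have h2 := ind_inj hc _ (fun i => irr_gal σ (hτ i)) (irr_phi hτ t) h1
    exact fun i => congrFun h2 i
  · intro hf x
    have h1 := congrFun e1 x
    have h3 : (fun i g => σ (τ i g)) = fun i g => τ i (φ t g) := funext hf
    rw [h3, ← e2] at h1
    exact h1

/-- the families of characters of degree prime to `p` which are mapped by the elements of `L` as by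
the corresponding elements of `P` -/
def JF (p : ℕ) (c : P →* (ZMod M)ˣ) (φ : P →* MulAut G) (ι : Type) (L : Set (ℂ ≃+* ℂ)) :
    Set (ι → G → ℂ) :=
  {τ | (∀ i, τ i ∈ XP p G) ∧ ∀ σ ∈ L, ∀ t, c t = ex M σ → ∀ i,
    (fun g => σ (τ i g)) = fun g => τ i (φ t g)}

theorem ind_mem (hc : Function.Injective c) (hP : ¬ p ∣ Nat.card P) (u : (ZMod M)ˣ)
    {L : Set (ℂ ≃+* ℂ)} (hL : ∀ σ ∈ L, ∃ t, c t = ex M σ) {τ : ι → G → ℂ}
    (hτ : ∀ i, IsIrr (τ i)) :
    ind c φ (u : ZMod M) τ ∈ Fx L (XP p (NO ι (CD M) G ⋊[actG ι ((aU M).comp c) φ] P)) ↔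
      τ ∈ JF p c φ ι L := by
  unfold Fx XP JF
  simp only [Set.mem_ofPred_eq]
  rw [ind_deg hP _ hτ]
  constructor
  · rintro ⟨⟨-, h1⟩, h2⟩
    exact ⟨fun i => ⟨hτ i, h1 i⟩, fun σ hσ t ht => (ind_fix hc u hτ ht).mp (h2 σ hσ)⟩
  · rintro ⟨h1, h2⟩
    refine ⟨⟨ind_irr hc u hτ, fun i => (h1 i).2⟩, fun σ hσ => ?_⟩
    obtain ⟨t, ht⟩ := hL σ hσ
    exact (ind_fix hc u hτ ht).mpr (h2 σ hσ t ht)

theorem card_abv (hc : Function.Injective c) (hP : ¬ p ∣ Nat.card P) (u : (ZMod M)ˣ)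
    {L : Set (ℂ ≃+* ℂ)} (hL : ∀ σ ∈ L, ∃ t, c t = ex M σ) :
    Nat.card {χ : NO ι (CD M) G ⋊[actG ι ((aU M).comp c) φ] P → ℂ //
      χ ∈ Fx L (XP p (NO ι (CD M) G ⋊[actG ι ((aU M).comp c) φ] P)) ∧
      Abv (u : ZMod M) χ} = Nat.card (JF p c φ ι L) := by
  refine (Nat.card_congr (Equiv.ofBijective
    (fun τ : JF p c φ ι L =>
      (⟨ind c φ (u : ZMod M) τ.1, (ind_mem hc hP u hL fun i => (τ.2.1 i).1).mpr τ.2,
        (abv_iff hc u (ind_irr hc u fun i => (τ.2.1 i).1)).mpr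
          ⟨τ.1, fun i => (τ.2.1 i).1, rfl⟩⟩ :
        {χ : NO ι (CD M) G ⋊[actG ι ((aU M).comp c) φ] P → ℂ //
          χ ∈ Fx L (XP p (NO ι (CD M) G ⋊[actG ι ((aU M).comp c) φ] P)) ∧
          Abv (u : ZMod M) χ}))
    ⟨?_, ?_⟩)).symm
  · rintro ⟨τ, hτ⟩ ⟨τ', hτ'⟩ he
    exact Subtype.ext (ind_inj hc u (fun i => (hτ.1 i).1) (fun i => (hτ'.1 i).1)
      (congrArg Subtype.val he))
  · rintro ⟨χ, h1, h2⟩
    obtain ⟨τ, hτ, rfl⟩ := (abv_iff hc u h1.1.1).mp h2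
    exact ⟨⟨τ, (ind_mem hc hP u hL hτ).mp h1⟩, rfl⟩

theorem card_units_abv (hc : Function.Injective c)
    {χ : NO ι (CD M) G ⋊[actG ι ((aU M).comp c) φ] P → ℂ} (hχ : IsIrr χ)
    {u : (ZMod M)ˣ} (h : Abv (u : ZMod M) χ) :
    (Finset.univ.filter fun v : (ZMod M)ˣ => Abv (v : ZMod M) χ).card = Nat.card P := by
  have h1 : (Finset.univ.filter fun v : (ZMod M)ˣ => Abv (v : ZMod M) χ) =
      Finset.univ.image fun t : P => c t * u := by
    ext v
    rw [Finset.mem_filter, Finset.mem_image]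
    constructor
    · rintro ⟨-, hv⟩
      obtain ⟨t, ht⟩ := abv_orbit hχ h hv
      exact ⟨t, Finset.mem_univ _, Units.ext (by rw [ht, Units.val_mul])⟩
    · rintro ⟨t, -, rfl⟩
      refine ⟨Finset.mem_univ _, ?_⟩
      rw [Units.val_mul]
      exact abv_smul h t
  rw [h1, Finset.card_image_of_injective, Finset.card_univ, Nat.card_eq_fintype_card]
  intro s t hst
  exact hc (mul_right_cancel hst)

/-- **Count** of the characters above faithful characters of `C_M`. -/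
theorem card_faithful (hc : Function.Injective c) (hP : ¬ p ∣ Nat.card P)
    {L : Set (ℂ ≃+* ℂ)} (hL : ∀ σ ∈ L, ∃ t, c t = ex M σ) :
    Nat.card P * Nat.card {χ : NO ι (CD M) G ⋊[actG ι ((aU M).comp c) φ] P → ℂ //
      χ ∈ Fx L (XP p (NO ι (CD M) G ⋊[actG ι ((aU M).comp c) φ] P)) ∧
      ∃ u : (ZMod M)ˣ, Abv (u : ZMod M) χ} =
      Nat.card (ZMod M)ˣ * Nat.card (JF p c φ ι L) := by
  set S := (IC.Irr (NO ι (CD M) G ⋊[actG ι ((aU M).comp c) φ] P)).filter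
    (· ∈ Fx L (XP p (NO ι (CD M) G ⋊[actG ι ((aU M).comp c) φ] P))) with hS
  have hcard : ∀ (Q : (NO ι (CD M) G ⋊[actG ι ((aU M).comp c) φ] P → ℂ) → Prop)
      [DecidablePred Q],
      Nat.card {χ : NO ι (CD M) G ⋊[actG ι ((aU M).comp c) φ] P → ℂ //
        χ ∈ Fx L (XP p (NO ι (CD M) G ⋊[actG ι ((aU M).comp c) φ] P)) ∧ Q χ} =
        (S.filter Q).card := by
    intro Q _
    refine Nat.subtype_card _ fun χ => ?_
    rw [Finset.mem_filter, hS, Finset.mem_filter, IC.mem_Irr]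
    exact ⟨fun h => ⟨h.1.2, h.2⟩, fun h => ⟨⟨h.1.1.1, h.1⟩, h.2⟩⟩
  have e1 : ∑ u : (ZMod M)ˣ, (S.filter fun χ => Abv (u : ZMod M) χ).card =
      Nat.card (ZMod M)ˣ * Nat.card (JF p c φ ι L) := by
    rw [Finset.sum_congr rfl fun u _ => by rw [← hcard, card_abv hc hP u hL], Finset.sum_const,
      smul_eq_mul, Finset.card_univ, Nat.card_eq_fintype_card (α := (ZMod M)ˣ)]
  have e2 : ∑ u : (ZMod M)ˣ, (S.filter fun χ => Abv (u : ZMod M) χ).card =
      Nat.card P * (S.filter fun χ => ∃ u : (ZMod M)ˣ, Abv (u : ZMod M) χ).card := by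
    have e3 : ∀ u : (ZMod M)ˣ, (S.filter fun χ => Abv (u : ZMod M) χ).card =
        ∑ χ ∈ S, if Abv (u : ZMod M) χ then 1 else 0 := by
      intro u
      rw [Finset.card_filter]
    rw [Finset.sum_congr rfl fun u _ => e3 u, Finset.sum_comm]
    have e4 : ∀ χ ∈ S, ∑ u : (ZMod M)ˣ, (if Abv (u : ZMod M) χ then 1 else 0) =
        if ∃ u : (ZMod M)ˣ, Abv (u : ZMod M) χ then Nat.card P else 0 := by
      intro χ hχ
      have hi : IsIrr χ := (Finset.mem_filter.mp hχ).2.1.1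
      rw [← Finset.card_filter]
      split_ifs with h
      · obtain ⟨u, hu⟩ := h
        exact card_units_abv hc hi hu
      · rw [Finset.card_eq_zero, Finset.filter_eq_empty_iff]
        exact fun u _ hu => h ⟨u, hu⟩
    rw [Finset.sum_congr rfl e4, ← Finset.sum_filter, Finset.sum_const, smul_eq_mul, mul_comm]
  rw [hcard]
  exact e2.symm.trans e1

end abv

end Pool.Agent.V8H56.MA
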