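import Pool.Agent.N84.MG.Main

/-!
# Automorphisms and Galois automorphisms: definitions
-/

set_option autoImplicit false

noncomputable section

namespace Pool.Agent.V8H56.MA

open Pool.Agent.Q259.BW Pool.Agent.N19.RB Pool.Agent.N84.MG

/-- The field automorphisms `τ` of `ℂ` which fix all `m`-th roots of unity, where `m` is the
`p'`-part of the order of `G`. -/
def IG (p : ℕ) (G : Type) : Set (ℂ ≃+* ℂ) :=
  {τ | ∀ ξ : ℂ, ξ ^ (Nat.card G / p ^ (Nat.card G).factorization p) = 1 → τ ξ = ξ}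

/-- Let `S` be a Sylow `p`-subgroup of `G`, `σ` an automorphism of `ℂ` and `f` an automorphism of
`G`. There is a bijection `F` from `Irr_{p'}(G)` to `Irr_{p'}(N_G(S))` such that
(1) `F` commutes with all `τ ∈ IG p G`: if `θ' = τ ∘ θ`, then `F θ' = τ ∘ F θ`;
(2) `F` commutes with the pair `(σ, f)`: if `θ' = σ ∘ θ ∘ f`, then `F θ' = σ ∘ F θ ∘ f` on `N_G(S)`;
(3) `F` preserves the characters of the centre: `(F θ)(z) / (F θ)(1) = θ(z) / θ(1)` for all `θ` and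
all `z` in `Z(G)`. -/
def TwBij {p : ℕ} {G : Type} [Group G] (S : Sylow p G) (σ : ℂ ≃+* ℂ) (f : MulAut G) : Prop :=
  ∃ F : XP p G ≃ XP p (NS S),
    (∀ τ ∈ IG p G, ∀ θ θ' : XP p G, (∀ g, θ'.1 g = τ (θ.1 g)) → ∀ n, (F θ').1 n = τ ((F θ).1 n)) ∧
    (∀ θ θ' : XP p G, (∀ g, θ'.1 g = σ (θ.1 (f g))) →
      ∀ n n' : NS S, (n' : G) = f n → (F θ').1 n = σ ((F θ).1 n')) ∧
    ∀ (θ : XP p G) (z : NS S), (z : G) ∈ Subgroup.center G →
      (F θ).1 z / (F θ).1 1 = θ.1 z / θ.1 1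

end Pool.Agent.V8H56.MA
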