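import Pool.Agent.V8H56.MA.Nrm
import Pool.Agent.V8H56.MA.Num
import Pool.Agent.V8H56.MA.Defs
import Pool.Agent.N19.RB.Uni
import Pool.Agent.N19.RB.Fml
import Pool.Agent.V8H56.EQ.Bij

/-!
# Characters which are mapped by a Galois automorphism as by an automorphism of the group
-/

set_option autoImplicit false
set_option linter.unusedSectionVars false

open scoped BigOperators Classical

noncomputable section

namespace Pool.Agent.V8H56.MA

open Pool.Agent.Q90.WR Pool.Agent.H254R3.IN Pool.Agent.Q259.BW Pool.Agent.Q288.MB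
open Pool.Agent.Helper884 Pool.Agent.N19.RB Pool.Agent.N84.MG Pool.Agent.V8H56.EQ
open Pool.Agent.V8H56.BF (resA coe_resA inv_iff)

section sig

variable {p : ℕ} [hp : Fact p.Prime]

/-- a Galois automorphism with given values at the roots of unity of order `p ^ b * m` which is a
given power map at more roots of unity -/
theorem exists_sig {b m k u : ℕ} (hm : p.Coprime m) (hk : p.Coprime k) (hm0 : 0 < m)
    (hk0 : 0 < k) (hu : u.Coprime (k * m)) {σ : ℂ ≃+* ℂ} (hσ : ∀ ξ : ℂ, ξ ^ m = 1 → σ ξ = ξ ^ u) :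
    ∃ σ' : ℂ ≃+* ℂ, (∀ z : ℂ, z ^ (k * m) = 1 → σ' z = z ^ u) ∧
      ∀ z : ℂ, z ^ (p ^ b * m) = 1 → σ' z = σ z := by
  have hb0 : p ^ b ≠ 0 := (pow_pos hp.out.pos b).ne'
  have : NeZero (p ^ b) := ⟨hb0⟩
  obtain ⟨σ', h1, h2⟩ := exists_two (n := p ^ b) (r := k * m)
    (s := ((ex (p ^ b) σ : (ZMod (p ^ b))ˣ) : ZMod (p ^ b)).val) (u := u)
    hb0 (Nat.mul_pos hk0 hm0).ne' (Nat.Coprime.pow_left _ (Nat.Coprime.mul_right hk hm))
    (ZMod.val_coe_unit_coprime _) hu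
  refine ⟨σ', h2, fun z hz => ?_⟩
  have a1 : σ' (z ^ p ^ b) = σ (z ^ p ^ b) := by
    have h3 : (z ^ p ^ b) ^ m = 1 := by rw [← pow_mul, hz]
    rw [h2 _ (by rw [mul_comm k m, pow_mul, h3, one_pow]), hσ _ h3]
  have a2 : σ' (z ^ m) = σ (z ^ m) := by
    have h3 : (z ^ m) ^ p ^ b = 1 := by rw [← pow_mul, mul_comm, hz]
    rw [h1 _ h3, ex_spec σ h3]
  have hz0 : z ≠ 0 := by
    rintro rfl
    rw [zero_pow (mul_ne_zero hb0 hm0.ne')] at hz
    exact zero_ne_one hz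
  have hs0 : σ z ≠ 0 := by
    rw [Ne, map_eq_zero_iff σ σ.injective]
    exact hz0
  rw [map_pow, map_pow] at a1 a2
  have b1 : (σ' z / σ z) ^ p ^ b = 1 := by
    rw [div_pow, a1, div_self (pow_ne_zero _ hs0)]
  have b2 : (σ' z / σ z) ^ m = 1 := by
    rw [div_pow, a2, div_self (pow_ne_zero _ hs0)]
  have b3 : orderOf (σ' z / σ z) = 1 :=
    Nat.eq_one_of_dvd_coprimes (Nat.Coprime.pow_left b hm) (orderOf_dvd_of_pow_eq_one b1)
      (orderOf_dvd_of_pow_eq_one b2)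
  rw [orderOf_eq_one_iff] at b3
  exact (div_eq_one_iff_eq hs0).mp b3

theorem sig_val {N : ℕ} (hN : 0 < N) {σ σ' : ℂ ≃+* ℂ} (h : ∀ z : ℂ, z ^ N = 1 → σ' z = σ z)
    {H : Type} [Group H] {χ : H → ℂ} (hχ : IsIrr χ) {g : H} (hg : g ^ N = 1) :
    σ' (χ g) = σ (χ g) := by
  have h1 := val_fixed hχ hN hg (ρ := σ'.trans σ.symm) (fun ξ hξ => by
    rw [RingEquiv.trans_apply, h ξ hξ, RingEquiv.symm_apply_apply])
  rw [RingEquiv.trans_apply, RingEquiv.symm_apply_eq] at h1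
  exact h1

theorem hg_of {W : Type} {N b K e : ℕ} (hW : Nat.card W = p ^ b * N) (hN : ¬ p ∣ N)
    (hK : N ∣ K) {σ' : ℂ ≃+* ℂ} (h : ∀ z : ℂ, z ^ K = 1 → σ' z = z ^ p ^ e) : σ' ∈ HG p W := by
  have hN0 : N ≠ 0 := fun h0 => hN (h0 ▸ dvd_zero p)
  have h1 : (Nat.card W).factorization p = b := by
    rw [hW, Nat.factorization_mul (pow_pos hp.out.pos b).ne' hN0, Finsupp.add_apply,
      Nat.factorization_eq_zero_of_not_dvd hN, hp.out.factorization_pow,
      Finsupp.single_eq_same, add_zero]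
  have h2 : Nat.card W / p ^ (Nat.card W).factorization p = N := by
    rw [h1, hW, Nat.mul_div_cancel_left _ (pow_pos hp.out.pos b)]
  refine ⟨e, fun ξ hξ => h ξ ?_⟩
  rw [h2] at hξ
  obtain ⟨k, rfl⟩ := hK
  rw [pow_mul, hξ, one_pow]

end sig

section cnt

theorem card_split {α : Type} (A : Set α) [Finite A] (Q : α → Prop) :
    Nat.card A = Nat.card {x // x ∈ A ∧ Q x} + Nat.card {x // x ∈ A ∧ ¬ Q x} := by
  rw [← card_sub, ← card_sub A (fun x => ¬ Q x), ← Nat.card_sum]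
  exact Nat.card_congr (Equiv.sumCompl fun x : A => Q x.1).symm

theorem card_Y {C G P : Type} [CommGroup C] [Group G] [Group P] [Fintype C] [Fintype G]
    [Fintype P] {ψ : P →* MulAut (NO Unit C G)} :
    Nat.card (NO Unit C G ⋊[ψ] P) = Nat.card C * Nat.card G * Nat.card P := by
  rw [card_sd, Nat.card_pi, Fintype.prod_option, Fintype.prod_unique]
  rfl

variable {P G : Type} [Group P] [Group G] [Fintype P] [Fintype G] {p : ℕ} [hp : Fact p.Prime]

/-- the lifts of the elements of `L` which fix the roots of unity of order `K` -/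
def lft (N K : ℕ) (L : Set (ℂ ≃+* ℂ)) : Set (ℂ ≃+* ℂ) :=
  {τ' | (∀ z : ℂ, z ^ K = 1 → τ' z = z) ∧ ∃ τ ∈ L, ∀ z : ℂ, z ^ N = 1 → τ' z = τ z}

theorem card_JF {r N K : ℕ} [NeZero r] {c : P →* (ZMod r)ˣ} (hc : Function.Injective c)
    {φ : P →* MulAut G} {L : Set (ℂ ≃+* ℂ)} {σ σ' : ℂ ≃+* ℂ} {t : P} (ht : c t = ex r σ')
    (hN : 0 < N) (hG : ∀ g : G, g ^ N = 1) (hK : r ∣ K)
    (hσ : ∀ z : ℂ, z ^ N = 1 → σ' z = σ z)
    (hL : ∀ τ ∈ L, ∃ τ' ∈ lft N K L, ∀ z : ℂ, z ^ N = 1 → τ' z = τ z) :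
    Nat.card (JF p c φ Unit (insert σ' (lft N K L))) =
      Nat.card {θ // θ ∈ Fx L (XP p G) ∧ (fun g => σ (θ g)) = fun g => θ (φ t g)} := by
  have hv : ∀ {ρ ρ' : ℂ ≃+* ℂ}, (∀ z : ℂ, z ^ N = 1 → ρ' z = ρ z) → ∀ {θ : G → ℂ}, IsIrr θ →
      (fun g => ρ' (θ g)) = fun g => ρ (θ g) := fun h θ hθ =>
    funext fun g => sig_val hN h hθ (hG g)
  have h1 : ∀ τ' ∈ lft N K L, ex r τ' = 1 := by
    intro τ' hτ'
    apply Units.ext
    rw [Units.val_one, ← Nat.cast_one]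
    refine ex_unique τ' fun ξ hξ => ?_
    rw [pow_one]
    obtain ⟨k, rfl⟩ := hK
    exact hτ'.1 ξ (by rw [pow_mul, hξ, one_pow])
  refine Nat.card_congr
    { toFun := fun τ => ⟨τ.1 (), ⟨τ.2.1 (), fun τ₀ hτ₀ g => ?_⟩, ?_⟩
      invFun := fun θ => ⟨fun _ => θ.1, fun _ => θ.2.1.1, ?_⟩
      left_inv := fun _ => rfl
      right_inv := fun _ => rfl }
  · obtain ⟨τ', h2, h3⟩ := hL τ₀ hτ₀
    have h4 := τ.2.2 τ' (Set.mem_insert_of_mem _ h2) 1 (by rw [map_one, h1 τ' h2]) ()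
    rw [hv h3 (τ.2.1 ()).1, map_one] at h4
    exact congrFun h4 g
  · have h4 := τ.2.2 σ' (Set.mem_insert _ _) t ht ()
    rw [hv hσ (τ.2.1 ()).1] at h4
    exact h4
  · intro ρ hρ s hs i
    rcases Set.mem_insert_iff.mp hρ with h | h
    · rw [h] at hs ⊢
      rw [hv hσ θ.2.1.1.1, hc (hs.trans ht.symm)]
      exact θ.2.2
    · have h5 : s = 1 := hc (by rw [hs, h1 ρ h, map_one])
      obtain ⟨τ₀, h2, h3⟩ := h.2
      rw [hv h3 θ.2.1.1.1, h5, map_one]
      exact funext fun g => θ.2.1.2 τ₀ h2 g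

theorem ext_Y {C : Type} [CommGroup C] [Fintype C] {n r : ℕ} (hr : r ≠ 0)
    (e : C ≃* Multiplicative (ZMod r)) {ψ : Multiplicative (ZMod n) →* MulAut (NO Unit C G)}
    (hP : ¬ p ∣ Nat.card (Multiplicative (ZMod n))) :
    Ext p G (NO Unit C G ⋊[ψ] Multiplicative (ZMod n)) := by
  refine ⟨(SemidirectProduct.rightHom (φ := ψ)).ker, r, 1,
    MonoidHom.normal_ker _, hr, ?_, ?_, ?_⟩
  · rw [← SemidirectProduct.range_inl_eq_ker_rightHom]
    exact ⟨(MonoidHom.ofInjective SemidirectProduct.inl_injective).symm.trans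
      ((NOe (Equiv.ofUnique Unit (Fin 1))).trans (MulEquiv.prodCongr e (MulEquiv.refl _)))⟩
  · intro a b
    rw [MonoidHom.mem_ker, map_mul, map_mul, map_mul, map_inv, map_inv]
    rw [mul_assoc, mul_comm (SemidirectProduct.rightHom a), mul_assoc, mul_inv_cancel_left,
      mul_inv_cancel]
  · rw [Subgroup.index_ker]
    have h1 : (SemidirectProduct.rightHom (φ := ψ)).range = ⊤ :=
      MonoidHom.range_eq_top.mpr SemidirectProduct.rightHom_surjective
    rw [h1, Subgroup.card_top]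
    exact hP

end cnt

variable {p : ℕ} [hp : Fact p.Prime]

/-- **The joint count.** -/
theorem joint (G : Type) [Group G] [Finite G]
    (H : ∀ (H : Type) [Group H] [Finite H] (T : Sylow p H), Ext p G H →
      EquivBij (HG p H) (XP p H) (XP p (NS T))) (S : Sylow p G) {σ : ℂ ≃+* ℂ}
    (hσ : σ ∈ HG p G) {L : Set (ℂ ≃+* ℂ)} (hL : ∀ τ ∈ L, τ ∈ IG p G) {f : MulAut G}
    (hf : ¬ p ∣ orderOf f)
    (hS : ∀ s ∈ (S : Subgroup G), f s ∈ (S : Subgroup G)) :
    Nat.card {θ // θ ∈ Fx L (XP p G) ∧ (fun g => σ (θ g)) = fun g => θ (f g)} =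
      Nat.card {θ // θ ∈ Fx L (XP p (NS S)) ∧
        ∀ n n' : NS S, (n' : G) = f n → σ (θ n) = θ n'} := by
  have := Fintype.ofFinite G
  obtain ⟨e, he⟩ := hσ
  set b := (Nat.card G).factorization p with hb
  set m := Nat.card G / p ^ b with hm
  have hcard : p ^ b * m = Nat.card G := Nat.ordProj_mul_ordCompl_eq_self _ _
  have hpm : ¬ p ∣ m := Nat.not_dvd_ordCompl hp.out Nat.card_pos.ne'
  have hm0 : 0 < m := Nat.pos_of_ne_zero fun h => hpm (h ▸ dvd_zero p)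
  have hcm : p.Coprime m := (Nat.Prime.coprime_iff_not_dvd hp.out).mpr hpm
  have he' : 0 < e + Nat.totient m := Nat.add_pos_right _ (Nat.totient_pos.mpr hm0)
  obtain ⟨r, n, hr, hrp, hn1, hdn, hpn, hord⟩ :=
    exists_r (p := p) (d := orderOf f) (e := e + Nat.totient m) hf he'
  have : Fact r.Prime := ⟨hr⟩
  have hn0 : 0 < n := by omega
  have : NeZero n := ⟨hn0.ne'⟩
  have hpr : ¬ p ∣ r := fun h => hrp ((Nat.prime_dvd_prime_iff_eq hp.out hr).mp h).symm
  have hcr : p.Coprime r := (Nat.Prime.coprime_iff_not_dvd hp.out).mpr hpr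
  have hcn : p.Coprime n := (Nat.Prime.coprime_iff_not_dvd hp.out).mpr hpn
  have hcop : (p ^ (e + Nat.totient m)).Coprime r := Nat.Coprime.pow_left _ hcr
  obtain ⟨y, hyv⟩ : ∃ y : (ZMod r)ˣ, (y : ZMod r) = ((p ^ (e + Nat.totient m) : ℕ) : ZMod r) :=
    ⟨ZMod.unitOfCoprime _ hcop, ZMod.coe_unitOfCoprime _ hcop⟩
  have hy : orderOf y = n := by
    rw [← orderOf_units, hyv]
    exact hord
  have hyn : y ^ n = 1 := by rw [← hy, pow_orderOf_eq_one]
  have hfn : f ^ n = 1 := orderOf_dvd_iff_pow_eq_one.mp hdn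
  obtain ⟨c, hcd⟩ : ∃ c : Multiplicative (ZMod n) →* (ZMod r)ˣ, c = hz y hyn := ⟨_, rfl⟩
  obtain ⟨φ, hφd⟩ : ∃ φ : Multiplicative (ZMod n) →* MulAut G, φ = hz f hfn := ⟨_, rfl⟩
  obtain ⟨t, htd⟩ : ∃ t : Multiplicative (ZMod n), t = Multiplicative.ofAdd 1 := ⟨_, rfl⟩
  have hct : c t = y := by rw [hcd, htd]; exact hz_gen hn1 _ _
  have hφt : φ t = f := by rw [hφd, htd]; exact hz_gen hn1 _ _
  have hci : Function.Injective c := by rw [hcd]; exact hz_inj _ _ hy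
  have hI : Inv φ (S : Subgroup G) := by
    intro x s hs
    have h1 : ∀ k : ℕ, (f ^ k) s ∈ (S : Subgroup G) := fun k => pow_mem_of hS k s hs
    rw [hφd]
    exact h1 _
  have hPc : Nat.card (Multiplicative (ZMod n)) = n := by
    rw [Nat.card_congr Multiplicative.toAdd, Nat.card_zmod]
  have hP : ¬ p ∣ Nat.card (Multiplicative (ZMod n)) := by rw [hPc]; exact hpn
  have hcK : p.Coprime (r * n) := Nat.Coprime.mul_right hcr hcn
  have hmod : p ^ (e + Nat.totient m) ≡ p ^ e [MOD m] := by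
    have h3 := (Nat.ModEq.pow_totient hcm).mul_left (p ^ e)
    rwa [mul_one, ← pow_add] at h3
  obtain ⟨σ', h1, h2⟩ := exists_sig (p := p) (b := b) (m := m) (k := r * n)
    (u := p ^ (e + Nat.totient m)) hcm hcK hm0 (Nat.mul_pos hr.pos hn0)
    (Nat.Coprime.pow_left _ (Nat.Coprime.mul_right hcK hcm)) (σ := σ) (fun ξ hξ => by
      rw [he ξ hξ, pow_modEq hξ hmod])
  rw [hcard] at h2
  obtain ⟨L', hL'⟩ : ∃ L', L' = lft (Nat.card G) (r * n * m) L := ⟨_, rfl⟩
  have hLL : ∀ τ ∈ L, ∃ τ' ∈ L', ∀ z : ℂ, z ^ Nat.card G = 1 → τ' z = τ z := by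
    intro τ hτ
    obtain ⟨τ', h3, h4⟩ := exists_sig (p := p) (b := b) (m := m) (k := r * n)
      (u := 1) hcm hcK hm0 (Nat.mul_pos hr.pos hn0) (Nat.coprime_one_left _) (σ := τ)
      (fun ξ hξ => by rw [pow_one]; exact hL τ hτ ξ hξ)
    rw [hcard] at h4
    rw [hL']
    exact ⟨τ', ⟨fun z hz => by rw [h3 z hz, pow_one], τ, hτ, h4⟩, h4⟩
  have hex : c t = ex r σ' := by
    rw [hct]
    apply Units.ext
    rw [hyv]
    refine (ex_unique σ' fun ξ hξ => h1 ξ ?_).symm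
    rw [mul_assoc, pow_mul, hξ, one_pow]
  have hrK : r ∣ r * n * m := ⟨n * m, by ring⟩
  have hexL : ∀ τ ∈ insert σ' L', ∃ t, c t = ex r τ := by
    intro τ hτ
    rcases Set.mem_insert_iff.mp hτ with h | h
    · exact ⟨t, by rw [h]; exact hex⟩
    · refine ⟨1, ?_⟩
      rw [map_one]
      apply Units.ext
      rw [Units.val_one, ← Nat.cast_one]
      refine (ex_unique τ fun ξ hξ => ?_).symm
      rw [pow_one]
      rw [hL'] at h
      exact h.1 ξ (by rw [mul_assoc, pow_mul, hξ, one_pow])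
  have hrn : ¬ p ∣ r * n * m := fun h => by
    rcases (Nat.Prime.dvd_mul hp.out).mp h with h | h
    · rcases (Nat.Prime.dvd_mul hp.out).mp h with h | h
      · exact hpr h
      · exact hpn h
    · exact hpm h
  have hnm : ¬ p ∣ n * m := fun h => by
    rcases (Nat.Prime.dvd_mul hp.out).mp h with h | h
    · exact hpn h
    · exact hpm h
  -- the groups
  have hsub : ∀ {W : Type} {N : ℕ}, Nat.card W = p ^ b * N → ¬ p ∣ N → N ∣ r * n * m →
      insert σ' L' ⊆ HG p W := by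
    intro W N h3 h4 h5 τ hτ
    rcases Set.mem_insert_iff.mp hτ with h | h
    · rw [h]
      exact hg_of h3 h4 h5 h1
    · rw [hL'] at h
      exact hg_of (e := 0) h3 h4 h5 (fun z hz => by rw [h.1 z hz, pow_zero, pow_one])
  have hW : insert σ' L' ⊆
      HG p (NO Unit (CD r) G ⋊[actG Unit ((aU r).comp c) φ] Multiplicative (ZMod n)) := by
    refine hsub (N := r * n * m) ?_ hrn dvd_rfl
    rw [card_Y, hPc, ← hcard]
    have h3 : Nat.card (CD r) = r := by
      rw [Nat.card_congr Multiplicative.toAdd, Nat.card_zmod]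
    rw [h3]
    ring
  have hW0 : insert σ' L' ⊆
      HG p (NO Unit Unit G ⋊[actG Unit (1 : Multiplicative (ZMod n) →* MulAut Unit)
      φ] Multiplicative (ZMod n)) := by
    refine hsub (N := n * m) ?_ hnm ⟨r, by ring⟩
    rw [card_Y, hPc, ← hcard, Nat.card_unique]
    ring
  obtain ⟨T, ⟨eT⟩⟩ := exists_norm (ι := Unit) (α := (aU r).comp c) (φ := φ) hP S hI
  obtain ⟨T₀, ⟨eT₀⟩⟩ := exists_norm (ι := Unit)
    (α := (1 : Multiplicative (ZMod n) →* MulAut Unit)) (φ := φ) hP S hI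
  have x1 : Ext p G (NO Unit (CD r) G ⋊[actG Unit ((aU r).comp c) φ]
      Multiplicative (ZMod n)) := ext_Y hr.ne_zero (MulEquiv.refl _) hP
  have x2 : Ext p G (NO Unit Unit G ⋊[actG Unit (1 : Multiplicative (ZMod n) →* MulAut Unit)
      φ] Multiplicative (ZMod n)) := ext_Y one_ne_zero (MulEquiv.ofUnique) hP
  have g1 := num_of_bij (H _ T x1) hW
  have g2 := num_of_bij (H _ T₀ x2) hW0
  have g3 : Nat.card (Fx (insert σ' L') (XP p (NS T))) = Nat.card (Fx (insert σ' L') (XP p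
      (NO Unit (CD r) (NS S) ⋊[actG Unit ((aU r).comp c) (resA φ hI)]
        Multiplicative (ZMod n)))) := by
    rw [← pull_XP eT, fx_pull, card_pull]
  have g4 : Nat.card (Fx (insert σ' L') (XP p (NS T₀))) = Nat.card (Fx (insert σ' L') (XP p
      (NO Unit Unit (NS S) ⋊[actG Unit (1 : Multiplicative (ZMod n) →* MulAut Unit)
        (resA φ hI)] Multiplicative (ZMod n)))) := by
    rw [← pull_XP eT₀, fx_pull, card_pull]
  rw [g3] at g1
  rw [g4] at g2
  have f1 : Finite (Fx (insert σ' L') (XP p (NO Unit (CD r) G ⋊[actG Unit ((aU r).comp c) φ]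
      Multiplicative (ZMod n)))) := finite_of_irr fun χ h => h.1.1
  have f2 : Finite (Fx (insert σ' L') (XP p (NO Unit (CD r) (NS S) ⋊[actG Unit ((aU r).comp c)
      (resA φ hI)] Multiplicative (ZMod n)))) := finite_of_irr fun χ h => h.1.1
  rw [card_split _ (fun χ => ∃ u : (ZMod r)ˣ, Abv (u : ZMod r) χ),
    card_split (Fx (insert σ' L') (XP p (NO Unit (CD r) (NS S) ⋊[actG Unit ((aU r).comp c)
      (resA φ hI)] Multiplicative (ZMod n)))) (fun χ => ∃ u : (ZMod r)ˣ, Abv (u : ZMod r) χ),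
    card_triv, card_triv, g2] at g1
  have g5 := Nat.add_right_cancel g1
  have k1 := card_faithful (ι := Unit) (φ := φ) hci hP hexL
  have k2 := card_faithful (ι := Unit) (φ := resA φ hI) hci hP hexL
  rw [g5] at k1
  have g6 := Nat.eq_of_mul_eq_mul_left Nat.card_pos (k1.symm.trans k2)
  rw [hL'] at g6
  rw [hL'] at hLL
  rw [card_JF (σ := σ) hci hex Nat.card_pos (fun g => pow_card_eq_one') hrK h2 hLL,
    card_JF (σ := σ) hci hex Nat.card_pos (fun g => Subtype.ext (by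
        rw [SubmonoidClass.coe_pow]
        exact pow_card_eq_one')) hrK h2 hLL, hφt] at g6
  rw [g6]
  refine Nat.card_congr (Equiv.subtypeEquivRight fun θ => and_congr_right fun hθ => ?_)
  have h4 : ∀ g : NS S, ((resA φ hI t g : NS S) : G) = f g := fun g => by
    rw [coe_resA, hφt]
  constructor
  · intro h5 x x' hx
    have h6 : x' = resA φ hI t x := Subtype.ext (hx.trans (h4 x).symm)
    rw [h6]
    exact congrFun h5 x
  · intro h5
    funext x
    exact h5 x _ (h4 x)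

end Pool.Agent.V8H56.MA
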