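import Pool.Agent.V8H56.EQ.Col

/-!
# Isomorphic coloured sets with actions of a group of permutations and of one more permutation
-/

set_option autoImplicit false

noncomputable section

namespace Pool.Agent.V8H56.MA

open MulAction Pool.Agent.V8H56.EQ

/-- subgroups of `I × ℤ` -/
theorem sub_prod {I : Type} [Group I] (R : Subgroup (I × Multiplicative ℤ)) :
    ∃ (i : I) (k : ℕ), ∀ T : Subgroup (I × Multiplicative ℤ), R ≤ T ↔
      (∀ j : I, (j, 1) ∈ R → (j, 1) ∈ T) ∧ (i, Multiplicative.ofAdd (k : ℤ)) ∈ T := by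
  have hc : IsCyclic (R.map (MonoidHom.snd I (Multiplicative ℤ))) := inferInstance
  obtain ⟨⟨e, he⟩, hgen⟩ := hc.exists_generator
  obtain ⟨⟨i, e'⟩, hR, rfl⟩ := Subgroup.mem_map.mp he
  have key : ∃ (i : I) (k : ℕ), (i, Multiplicative.ofAdd (k : ℤ)) ∈ R ∧
      ∀ x ∈ R, ∃ l : ℤ, x.2 = (Multiplicative.ofAdd (k : ℤ)) ^ l := by
    have h1 : ∀ x ∈ R, ∃ l : ℤ, x.2 = e' ^ l := by
      intro x hx
      obtain ⟨l, hl⟩ := Subgroup.mem_zpowers_iff.mp
        (hgen ⟨x.2, Subgroup.mem_map.mpr ⟨x, hx, rfl⟩⟩)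
      exact ⟨l, (congrArg Subtype.val hl).symm⟩
    obtain ⟨n, hn | hn⟩ := Int.eq_nat_or_neg (Multiplicative.toAdd e')
    · refine ⟨i, n, ?_, ?_⟩
      · rw [← hn]
        exact hR
      · intro x hx
        obtain ⟨l, hl⟩ := h1 x hx
        refine ⟨l, ?_⟩
        rw [← hn]
        exact hl
    · have h2 : Multiplicative.ofAdd (n : ℤ) = e'⁻¹ := by
        apply Multiplicative.toAdd.injective
        rw [toAdd_ofAdd, toAdd_inv, hn, neg_neg]
      refine ⟨i⁻¹, n, ?_, ?_⟩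
      · rw [h2]
        exact inv_mem hR
      · intro x hx
        obtain ⟨l, hl⟩ := h1 x hx
        refine ⟨-l, ?_⟩
        rw [h2, inv_zpow, zpow_neg, inv_inv]
        exact hl
  obtain ⟨i, k, hk, hall⟩ := key
  refine ⟨i, k, fun T => ⟨fun h => ⟨fun j hj => h hj, h hk⟩, ?_⟩⟩
  rintro ⟨h1, h2⟩ x hx
  obtain ⟨l, hl⟩ := hall x hx
  have h3 : x * ((i, Multiplicative.ofAdd (k : ℤ)) : I × Multiplicative ℤ) ^ (-l) =
      (x.1 * i ^ (-l), 1) := by
    apply Prod.ext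
    · rfl
    · change x.2 * Multiplicative.ofAdd (k : ℤ) ^ (-l) = 1
      rw [hl, zpow_neg, mul_inv_cancel]
  have h4 : (x.1 * i ^ (-l), 1) ∈ T := h1 _ (by
    rw [← h3]
    exact mul_mem hx (Subgroup.zpow_mem R hk _))
  rw [← h3] at h4
  exact (T.mul_mem_cancel_right (Subgroup.zpow_mem T h2 _)).mp h4

/-- **Two finite coloured sets with permutations** -/
theorem iso_two {X Y Λ I : Type} [Finite X] [Finite Y] [Finite Λ] [Group I]
    (A : I →* Equiv.Perm X × Equiv.Perm Y × Equiv.Perm Λ)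
    (g : Equiv.Perm X × Equiv.Perm Y × Equiv.Perm Λ)
    (hA : ∀ i j, A i * A j = A j * A i) (hg : ∀ i, A i * g = g * A i)
    (c : X → Λ) (c' : Y → Λ)
    (hc : ∀ i x, c ((A i).1 x) = (A i).2.2 (c x))
    (hc' : ∀ i y, c' ((A i).2.1 y) = (A i).2.2 (c' y))
    (hcg : ∀ x, c (g.1 x) = g.2.2 (c x)) (hcg' : ∀ y, c' (g.2.1 y) = g.2.2 (c' y))
    (h : ∀ (L : Set I) (i : I) (k : ℕ) (l : Λ),
      Nat.card {x : X // ((∀ j ∈ L, (A j).1 x = x) ∧ (A i).1 ((g.1 ^ k) x) = x) ∧ c x = l} =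
      Nat.card {y : Y // ((∀ j ∈ L, (A j).2.1 y = y) ∧ (A i).2.1 ((g.2.1 ^ k) y) = y) ∧
        c' y = l}) :
    ∃ F : X ≃ Y, (∀ i x, F ((A i).1 x) = (A i).2.1 (F x)) ∧ (∀ x, F (g.1 x) = g.2.1 (F x)) ∧
      ∀ x, c' (F x) = c x := by
  let Φ : I × Multiplicative ℤ →* Equiv.Perm X × Equiv.Perm Y × Equiv.Perm Λ :=
    MonoidHom.noncommCoprod A (zpowersHom _ g) (fun i z => by
      rw [zpowersHom_apply]
      exact Commute.zpow_right (hg i) _)
  have hΦ : ∀ i z, Φ (i, z) = A i * g ^ Multiplicative.toAdd z := fun i z => by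
    rw [MonoidHom.noncommCoprod_apply, zpowersHom_apply]
  let P := Φ.range
  let iX : MulAction P X := MulAction.compHom X ((MonoidHom.fst (Equiv.Perm X)
    (Equiv.Perm Y × Equiv.Perm Λ)).comp P.subtype)
  let iY : MulAction P Y := MulAction.compHom Y (((MonoidHom.fst (Equiv.Perm Y)
    (Equiv.Perm Λ)).comp (MonoidHom.snd (Equiv.Perm X) (Equiv.Perm Y × Equiv.Perm Λ))).comp
      P.subtype)
  let iΛ : MulAction P Λ := MulAction.compHom Λ (((MonoidHom.snd (Equiv.Perm Y)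
    (Equiv.Perm Λ)).comp (MonoidHom.snd (Equiv.Perm X) (Equiv.Perm Y × Equiv.Perm Λ))).comp
      P.subtype)
  have hX : ∀ (a : P) (x : X), a • x = a.1.1 x := fun _ _ => rfl
  have hY : ∀ (a : P) (x : Y), a • x = a.1.2.1 x := fun _ _ => rfl
  have hΛ : ∀ (a : P) (x : Λ), a • x = a.1.2.2 x := fun _ _ => rfl
  have hcomm : ∀ a b : P, a * b = b * a := by
    rintro ⟨_, ⟨⟨i, z⟩, rfl⟩⟩ ⟨_, ⟨⟨j, w⟩, rfl⟩⟩
    apply Subtype.ext
    change Φ (i, z) * Φ (j, w) = Φ (j, w) * Φ (i, z)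
    rw [hΦ, hΦ]
    have h1 : Commute (A i) (A j) := hA i j
    have h2 : ∀ i, Commute (A i) g := hg
    have h3 : Commute (A i * g ^ Multiplicative.toAdd z) (A j * g ^ Multiplicative.toAdd w) :=
      Commute.mul_left (Commute.mul_right h1 (Commute.zpow_right (h2 i) _))
        (Commute.mul_right (Commute.zpow_left (h2 j).symm _)
          (Commute.zpow_zpow (Commute.refl g) _ _))
    exact h3
  -- compatibility of the colours
  have hinv : ∀ (Z : Type) (c : Z → Λ) (u : Equiv.Perm Z) (v : Equiv.Perm Λ),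
      (∀ x, c (u x) = v (c x)) → ∀ (n : ℤ) x, c ((u ^ n) x) = (v ^ n) (c x) := by
    intro Z c u v huv n
    have hnat : ∀ (n : ℕ) x, c ((u ^ n) x) = (v ^ n) (c x) := by
      intro n
      induction n with
      | zero => exact fun x => rfl
      | succ n ih =>
        intro x
        rw [pow_succ, pow_succ, Equiv.Perm.mul_apply, Equiv.Perm.mul_apply, ih, huv]
    rcases Int.eq_nat_or_neg n with ⟨k, rfl | rfl⟩
    · intro x
      rw [zpow_natCast, zpow_natCast]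
      exact hnat k x
    · intro x
      rw [zpow_neg, zpow_neg, zpow_natCast, zpow_natCast, Equiv.Perm.eq_inv_iff_eq, ← hnat]
      exact congrArg c (Equiv.apply_symm_apply (u ^ k) x)
  have key : ∀ {Z : Type} (i : I) (z : ℤ) (c : Z → Λ) (pr : Equiv.Perm X × Equiv.Perm Y ×
      Equiv.Perm Λ →* Equiv.Perm Z), (∀ x, c (pr (A i) x) = (A i).2.2 (c x)) →
      (∀ x, c (pr g x) = g.2.2 (c x)) → ∀ x, c (pr (A i * g ^ z) x) =
        (A i * g ^ z).2.2 (c x) := by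
    intro Z i z c pr h1 h2 x
    rw [map_mul, map_zpow, Equiv.Perm.mul_apply, h1, hinv Z c _ _ h2]
    rfl
  obtain ⟨F, hF1, hF2⟩ := iso_col (P := P) hcomm (X := X) (Y := Y) (Λ := Λ) c c' (by
    rintro ⟨_, ⟨⟨i, z⟩, rfl⟩⟩ x
    rw [hX, hΛ]
    change c ((Φ (i, z)).1 x) = (Φ (i, z)).2.2 (c x)
    rw [hΦ]
    exact key i _ c (MonoidHom.fst _ _) (hc i) hcg x) (by
    rintro ⟨_, ⟨⟨i, z⟩, rfl⟩⟩ x
    rw [hY, hΛ]
    change c' ((Φ (i, z)).2.1 x) = (Φ (i, z)).2.2 (c' x)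
    rw [hΦ]
    exact key i _ c' ((MonoidHom.fst _ _).comp (MonoidHom.snd _ _)) (hc' i) hcg' x) (by
    intro Q l
    let Ψ : I × Multiplicative ℤ →* P := Φ.rangeRestrict
    have hΨ : Function.Surjective Ψ := MonoidHom.rangeRestrict_surjective Φ
    have hval : ∀ i z, (Ψ (i, z)).1 = A i * g ^ Multiplicative.toAdd z := fun i z => hΦ i z
    obtain ⟨i, k, hik⟩ := sub_prod (Q.comap Ψ)
    have hQ : ∀ T : Subgroup P, Q ≤ T ↔ (∀ j ∈ {j : I | Ψ (j, 1) ∈ Q}, Ψ (j, 1) ∈ T) ∧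
        Ψ (i, Multiplicative.ofAdd (k : ℤ)) ∈ T := by
      intro T
      have h1 := hik (T.comap Ψ)
      rw [Subgroup.comap_le_comap_of_surjective hΨ] at h1
      exact h1
    have e1 : Nat.card {x : X // Q ≤ stabilizer P x ∧ c x = l} =
        Nat.card {x : X // ((∀ j ∈ {j : I | Ψ (j, 1) ∈ Q}, (A j).1 x = x) ∧
          (A i).1 ((g.1 ^ k) x) = x) ∧ c x = l} := by
      refine Nat.card_congr (Equiv.subtypeEquivRight fun x => and_congr_left fun _ => ?_)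
      rw [hQ]
      refine and_congr (forall₂_congr fun j _ => ?_) ?_
      · rw [mem_stabilizer_iff, hX, hval, toAdd_one, zpow_zero, mul_one]
      · rw [mem_stabilizer_iff, hX, hval, toAdd_ofAdd, zpow_natCast]
        rfl
    have e2 : Nat.card {y : Y // Q ≤ stabilizer P y ∧ c' y = l} =
        Nat.card {y : Y // ((∀ j ∈ {j : I | Ψ (j, 1) ∈ Q}, (A j).2.1 y = y) ∧
          (A i).2.1 ((g.2.1 ^ k) y) = y) ∧ c' y = l} := by
      refine Nat.card_congr (Equiv.subtypeEquivRight fun x => and_congr_left fun _ => ?_)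
      rw [hQ]
      refine and_congr (forall₂_congr fun j _ => ?_) ?_
      · rw [mem_stabilizer_iff, hY, hval, toAdd_one, zpow_zero, mul_one]
      · rw [mem_stabilizer_iff, hY, hval, toAdd_ofAdd, zpow_natCast]
        rfl
    rw [e1, e2, h])
  have hPi : ∀ i : I, A i ∈ P := fun i => ⟨(i, 1), by
    rw [hΦ, toAdd_one, zpow_zero, mul_one]⟩
  have hPg : g ∈ P := ⟨(1, Multiplicative.ofAdd 1), by
    rw [hΦ, toAdd_ofAdd, zpow_one, map_one, one_mul]⟩
  exact ⟨F, fun i x => hF1 ⟨A i, hPi i⟩ x, fun x => hF1 ⟨g, hPg⟩ x, hF2⟩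

end Pool.Agent.V8H56.MA
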